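import Pool.Agent.Lib.NilDescent.Nil
import Mathlib.Data.Matrix.Basis

/-!
# The theorem of Bergman and Isaacs
-/

set_option autoImplicit false

namespace Pool.Agent.Lib.NilDescent

section

variable {S : Type*} [Ring S] {G : Type*} [Group G] [MulSemiringAction G S]

/-- the action on matrices -/
@[reducible]
def matrixAction (n : Type*) [Fintype n] [DecidableEq n] : MulSemiringAction G (Matrix n n S) :=
  { (inferInstance : DistribMulAction G (Matrix n n S)) with
    smul_one := fun g => by
      ext i j
      rw [Matrix.smul_apply, Matrix.one_apply, smul_ite, smul_one, smul_zero]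
    smul_mul := fun g A B => by
      ext i j
      rw [Matrix.smul_apply, Matrix.mul_apply, Matrix.mul_apply, Finset.smul_sum]
      simp only [smul_mul', Matrix.smul_apply] }

/-- the product of the matrix rings of all sizes -/
abbrev BigRing (S : Type*) : Type _ := ∀ k : ℕ, Matrix (Fin (k + 1)) (Fin (k + 1)) S

@[reducible]
def bigAction : MulSemiringAction G (BigRing S) :=
  letI : ∀ k : ℕ, MulSemiringAction G (Matrix (Fin (k + 1)) (Fin (k + 1)) S) :=
    fun k => matrixAction (Fin (k + 1))
  { smul := fun g a k => g • a k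
    one_smul := fun a => funext fun k => one_smul G (a k)
    mul_smul := fun g h a => funext fun k => mul_smul g h (a k)
    smul_zero := fun g => funext fun _ => smul_zero g
    smul_add := fun g a b => funext fun k => smul_add g (a k) (b k)
    smul_one := fun g => funext fun _ => MulSemiringAction.smul_one g
    smul_mul := fun g a b => funext fun k => MulSemiringAction.smul_mul g (a k) (b k) }

/-- the elements with entries in `R` -/
def bigIdeal (R : Ideal S) : Ideal (BigRing S) where
  carrier := {a | ∀ k i j, a k i j ∈ R}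
  add_mem' := by
    intro a b ha hb k i j
    exact R.add_mem (ha k i j) (hb k i j)
  zero_mem' := fun k i j => R.zero_mem
  smul_mem' := by
    intro a b hb k i j
    change (a k * b k) i j ∈ R
    rw [Matrix.mul_apply]
    exact R.sum_mem fun x _ => R.mul_mem_left _ (hb k x j)

/-- entries of products of matrices -/
lemma matrix_prod {B : AddSubgroup S} {n : ℕ} (hB : ProdZero (B : Set S) n) {ι : Type*} [Fintype ι]
    [DecidableEq ι] (l : List (Matrix ι ι S)) (hl : l.length = n)
    (h : ∀ M ∈ l, ∀ i j, M i j ∈ B) : l.prod = 0 := by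
  have key : ∀ (l : List (Matrix ι ι S)) (l' : List S), l'.length + l.length = n →
      (∀ x ∈ l', x ∈ B) → (∀ M ∈ l, ∀ i j, M i j ∈ B) → ∀ i j, l'.prod * l.prod i j = 0 := by
    intro l
    induction l with
    | nil =>
      intro l' hl' hB' _ i j
      rw [hB l' (by simpa using hl') hB', zero_mul]
    | cons M l ih =>
      intro l' hl' hB' hM i j
      rw [List.prod_cons, Matrix.mul_apply, Finset.mul_sum]
      refine Finset.sum_eq_zero (fun k _ => ?_)
      have h1 := ih (l' ++ [M i k]) (by
        rw [List.length_append]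
        simp only [List.length_cons, List.length_nil] at hl' ⊢
        omega) (by
        intro x hx
        rcases List.mem_append.1 hx with h | h
        · exact hB' x h
        · rw [List.mem_singleton.1 h]
          exact hM M (by simp) i k) (fun N hN => hM N (by simp [hN])) k j
      rwa [List.prod_append, List.prod_singleton, mul_assoc] at h1
  ext i j
  have h1 := key l [] (by simpa using hl) (by simp) h i j
  simpa using h1

/-- powers of a matrix with entries only above the diagonal -/
lemma super_pow {k : ℕ} (f : Fin k → S) (m : ℕ) (hm : m ≤ k) (l : List S)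
    (hl : l = (List.ofFn f).take m) :
    ((Matrix.of fun (i j : Fin (k + 1)) => if h : (j : ℕ) = (i : ℕ) + 1 then
      f ⟨i, by omega⟩ else 0) ^ m) 0 ⟨m, by omega⟩ = l.prod ∧
    ∀ j : Fin (k + 1), (j : ℕ) ≠ m → ((Matrix.of fun (i j : Fin (k + 1)) =>
      if h : (j : ℕ) = (i : ℕ) + 1 then f ⟨i, by omega⟩ else 0) ^ m) 0 j = 0 := by
  induction m generalizing l with
  | zero =>
    subst hl
    constructor
    · simp
    · intro j hj
      rw [pow_zero, Matrix.one_apply, if_neg]
      intro h
      apply hj
      rw [← h]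
      rfl
  | succ m ih =>
    obtain ⟨h1, h2⟩ := ih (by omega) _ rfl
    have h3 : ∀ j : Fin (k + 1), ((Matrix.of fun (i j : Fin (k + 1)) =>
        if h : (j : ℕ) = (i : ℕ) + 1 then f ⟨i, by omega⟩ else 0) ^ (m + 1)) 0 j =
        (((List.ofFn f).take m).prod) * (if h : (j : ℕ) = m + 1 then f ⟨m, by omega⟩ else 0) := by
      intro j
      rw [pow_succ, Matrix.mul_apply, Finset.sum_eq_single (⟨m, by omega⟩ : Fin (k + 1))]
      · rw [h1]
        rfl
      · intro x _ hx
        rw [h2 x (fun h => hx (Fin.ext h)), zero_mul]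
      · intro h
        exact absurd (Finset.mem_univ _) h
    constructor
    · rw [h3, dif_pos rfl, hl, List.prod_take_succ _ _ (by rw [List.length_ofFn]; omega)]
      simp
    · intro j hj
      rw [h3, dif_neg hj, mul_zero]

/-- **The theorem of Bergman and Isaacs** (without the bound). -/
theorem exists_prodZero [Finite G] (hG : IsUnit ((Nat.card G : ℕ) : S)) {R : Ideal S}
    (hR : ∀ (g : G), ∀ r ∈ R, g • r ∈ R) {n : ℕ}
    (hn : ProdZero {r : S | r ∈ R ∧ ∀ g : G, g • r = r} n) :
    ∃ N : ℕ, ProdZero (R : Set S) N := by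
  classical
  by_contra hcon
  push Not at hcon
  have h1 : ∀ k : ℕ, ∃ l : List S, l.length = k ∧ (∀ x ∈ l, x ∈ (R : Set S)) ∧ l.prod ≠ 0 := by
    intro k
    have := hcon k
    unfold ProdZero at this
    push Not at this
    exact this
  choose l hl hlR hl0 using h1
  let f : ∀ k : ℕ, Fin k → S := fun k i => (l k).get ⟨i, by rw [hl k]; exact i.2⟩
  have hf : ∀ k, List.ofFn (f k) = l k := by
    intro k
    apply List.ext_get
    · rw [List.length_ofFn, hl]
    · intro i h1 h2
      simp [f]
  let a : BigRing S := fun k => Matrix.of fun (i j : Fin (k + 1)) =>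
    if h : (j : ℕ) = (i : ℕ) + 1 then f k ⟨i, by omega⟩ else 0
  let _ : MulSemiringAction G (BigRing S) := bigAction
  let B : AddSubgroup S :=
    { carrier := {r : S | r ∈ R ∧ ∀ g : G, g • r = r}
      add_mem' := by
        rintro a b ⟨ha, ha'⟩ ⟨hb, hb'⟩
        exact ⟨R.add_mem ha hb, fun g => by rw [smul_add, ha', hb']⟩
      zero_mem' := ⟨R.zero_mem, fun g => smul_zero g⟩
      neg_mem' := by
        rintro a ⟨ha, ha'⟩
        exact ⟨R.neg_mem ha, fun g => by rw [smul_neg, ha']⟩ }
  have hsm : ∀ (g : G) (b : BigRing S) (k : ℕ) (i j : Fin (k + 1)), (g • b) k i j = g • b k i j :=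
    fun g b k i j => rfl
  have ha : a ∈ bigIdeal R := by
    intro k i j
    change (if h : (j : ℕ) = (i : ℕ) + 1 then f k ⟨i, by omega⟩ else 0) ∈ R
    split_ifs with h
    · exact hlR k _ (List.get_mem _ _)
    · exact R.zero_mem
  have hnil : IsNilpotent a := by
    refine isNilpotent_of_invariants (G := G) (S := BigRing S) (R := bigIdeal R) (n := n)
      ?_ ?_ ?_ ha
    · have h2 := hG.map (RingHom.pi fun k : ℕ => Matrix.scalar (α := S) (Fin (k + 1)))
      rwa [map_natCast] at h2
    · intro g b hb k i j
      rw [hsm]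
      exact hR g _ (hb k i j)
    · intro L hL hLB
      funext k
      have h2 : (L.prod : BigRing S) k = (L.map fun b => b k).prod :=
        map_list_prod (Pi.evalRingHom (fun k : ℕ => Matrix (Fin (k + 1)) (Fin (k + 1)) S) k) L
      rw [h2]
      refine matrix_prod (B := B) hn _ (by rw [List.length_map, hL]) ?_
      intro M hM i j
      obtain ⟨b, hb, rfl⟩ := List.mem_map.1 hM
      obtain ⟨h3, h4⟩ := hLB b hb
      exact ⟨h3 k i j, fun g => by rw [← hsm, h4]⟩
  obtain ⟨m, hm⟩ := hnil
  have h2 : a m ^ m = 0 := by
    have := congrFun hm m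
    rwa [Pi.pow_apply] at this
  have h3 := (super_pow (f m) m le_rfl _ rfl).1
  have h4 : (a m ^ m) 0 ⟨m, by omega⟩ = 0 := by rw [h2]; rfl
  apply hl0 m
  have h5 : (List.ofFn (f m)).take m = l m := by
    rw [hf, List.take_of_length_le (by rw [hl])]
  rw [← h5, ← h3]
  exact h4

end

end Pool.Agent.Lib.NilDescent
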