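import Pool.Agent.Lib.NilDescent.Relative
import Mathlib.CategoryTheory.Linear.Basic
import Mathlib.CategoryTheory.Preadditive.Basic
import Mathlib.CategoryTheory.Preadditive.AdditiveFunctor
import Mathlib.Algebra.Category.ModuleCat.Basic

/-!
# Very general complete intersections in an arbitrary variety

`V` is the category of correspondences of all degrees between smooth projective varieties over a
field `F`: the morphisms `P ⟶ Q` are the elements of `CH^*(P × Q)`, with rational coefficients.
-/

set_option autoImplicit false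

open CategoryTheory

namespace Pool.Agent.Lib.NilDescent

universe u v

section

variable {V : Type u} [Category.{v} V] [Preadditive V] [Linear ℚ V]

/-- `X` is any smooth projective variety (over `k`), `Y` is the generic member of a family of complete
intersections in `X`, over a finite Galois extension `F` of the function field `K` of the base. `A` is
the Chow ring of `X`, and `C` is the Chow group of `X × X`, over `k`. -/
structure Ambient (Y X : V) (A : Type*) [CommRing A] [Algebra ℚ A] (C : Type*) [AddCommGroup C]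
    [Module ℚ C] where
  /-- the component in codimension `0` -/
  aug : A →ₐ[ℚ] ℚ
  /-- the ideal of the classes of positive codimension is nilpotent -/
  nilpotent : IsNilpotent (RingHom.ker aug)
  /-- `diag x` is the direct image of the restriction of `x` under the diagonal of `Y` -/
  diag : A →ₐ[ℚ] End Y
  /-- the direct image for the inclusion of `Y` in `X` -/
  push : Y ⟶ X
  /-- the inverse image for the inclusion of `Y` in `X` -/
  pull : X ⟶ Y
  /-- extension of scalars from `k` to `F` -/
  base : C →ₗ[ℚ] (X ⟶ X)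

variable {Y X : V} {A : Type*} [CommRing A] [Algebra ℚ A] {C : Type*} [AddCommGroup C]
    [Module ℚ C]

/-- the corresponding structure on the ring of self-correspondences of `Y` -/
def Ambient.toSection (c : Ambient Y X A C) : Section (End Y) A C where
  aug := c.aug
  nilpotent := c.nilpotent
  diag := c.diag
  pull :=
    { toFun := fun z => (c.push ≫ c.base z ≫ c.pull : Y ⟶ Y)
      map_add' := fun z w => by
        rw [map_add, Preadditive.add_comp, Preadditive.comp_add]
      map_smul' := fun q z => by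
        rw [map_smul, Linear.smul_comp, Linear.comp_smul]; rfl }

/-- The sums of compositions `Y ⟶ X ⟶ Y`: the correspondences that factor through a finite direct sum of
copies of `X` (the Tate twists are built in, as all degrees are allowed). -/
def Through (Y X : V) : AddSubgroup (Y ⟶ Y) :=
  AddSubgroup.closure {t | ∃ (a : Y ⟶ X) (b : X ⟶ Y), t = a ≫ b}

lemma through_iff {t : Y ⟶ Y} : t ∈ Through Y X ↔
    ∃ (n : ℕ) (a : Fin n → (Y ⟶ X)) (b : Fin n → (X ⟶ Y)), t = ∑ k, a k ≫ b k := by
  constructor
  · intro h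
    refine AddSubgroup.closure_induction (p := fun t _ => ∃ (n : ℕ) (a : Fin n → (Y ⟶ X))
      (b : Fin n → (X ⟶ Y)), t = ∑ k, a k ≫ b k) ?_ ?_ ?_ ?_ h
    · rintro _ ⟨a, b, rfl⟩
      exact ⟨1, fun _ => a, fun _ => b, by simp⟩
    · exact ⟨0, Fin.elim0, Fin.elim0, by simp⟩
    · rintro _ _ _ _ ⟨n, a, b, rfl⟩ ⟨m, a', b', rfl⟩
      refine ⟨n + m, Fin.append a a', Fin.append b b', ?_⟩
      rw [Fin.sum_univ_add]
      simp
    · rintro _ _ ⟨n, a, b, rfl⟩
      exact ⟨n, fun k => - a k, b, by simp⟩
  · rintro ⟨n, a, b, rfl⟩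
    exact AddSubgroup.sum_mem _ fun k _ => AddSubgroup.subset_closure ⟨_, _, rfl⟩

lemma Ambient.through_le (c : Ambient Y X A C) {t : End Y} (ht : t ∈ c.toSection.through) :
    t ∈ Through Y X := by
  refine AddSubgroup.closure_induction (p := fun t _ => t ∈ Through Y X) ?_ ?_ ?_ ?_ ht
  · rintro _ ⟨a, x, b, rfl⟩
    refine AddSubgroup.subset_closure ⟨b ≫ c.push, c.base x ≫ c.pull ≫ a, ?_⟩
    change b ≫ (c.push ≫ c.base x ≫ c.pull) ≫ a = _
    simp only [Category.assoc]
  · exact AddSubgroup.zero_mem _
  · exact fun _ _ _ _ ha hb => AddSubgroup.add_mem _ ha hb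
  · exact fun _ _ ha => AddSubgroup.neg_mem _ ha

variable {G : Type*} [Group G] [MulSemiringAction G (End Y)] {W O Z : Type*}
  [AddCommGroup W] [Module ℚ W] [AddCommGroup O] [Module ℚ O] [AddCommGroup Z] [Module ℚ Z]

/-- The compositions are closed under composition with self-correspondences of `Y`. -/
lemma comp_through (s : Y ⟶ Y) {t : Y ⟶ Y} (ht : t ∈ Through Y X) : s ≫ t ∈ Through Y X := by
  refine AddSubgroup.closure_induction (p := fun t _ => s ≫ t ∈ Through Y X) ?_ ?_ ?_ ?_ ht
  · rintro _ ⟨a, b, rfl⟩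
    exact AddSubgroup.subset_closure ⟨s ≫ a, b, (Category.assoc _ _ _).symm⟩
  · rw [Limits.comp_zero]; exact AddSubgroup.zero_mem _
  · intro x y _ _ hx hy
    rw [Preadditive.comp_add]; exact AddSubgroup.add_mem _ hx hy
  · intro x _ hx
    rw [Preadditive.comp_neg]; exact AddSubgroup.neg_mem _ hx

/-- **Nilpotence modulo the ambient variety.** -/
theorem Ambient.exists_prod_mem [Finite G] (c : Ambient Y X A C)
    (u : Section.Family c.toSection G W O Z) (l : End Y →ₐ[ℚ] ℚ)
    (hp : ∀ x, l (c.push ≫ c.base x ≫ c.pull : Y ⟶ Y) = 0)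
    (hl : ∀ (g : G) (t : End Y), l t = 0 → l (g • t) = 0) :
    ∃ N : ℕ, 0 < N ∧ ∀ L : List (End Y), L.length = N → (∀ t ∈ L, l t = 0) →
      L.prod ∈ Through Y X := by
  obtain ⟨N, hN⟩ := u.exists_prod_mem l hp hl
  refine ⟨N + 1, Nat.succ_pos N, fun L hL h => ?_⟩
  cases L with
  | nil => simp at hL
  | cons a L =>
    rw [List.prod_cons]
    have h1 : c.toSection.through.IsTwoSided := inferInstance
    exact c.through_le (c.toSection.through.mul_mem_left a
      (hN L (by simpa using hL) (fun t ht => h t (List.mem_cons_of_mem a ht))))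

/-- **The motive of `Y` is indecomposable modulo the motive of `X`.** -/
theorem Ambient.idempotent [Finite G] (c : Ambient Y X A C)
    (u : Section.Family c.toSection G W O Z) (l : End Y →ₐ[ℚ] ℚ)
    (hp : ∀ x, l (c.push ≫ c.base x ≫ c.pull : Y ⟶ Y) = 0)
    (hl : ∀ (g : G) (t : End Y), l t = 0 → l (g • t) = 0) (e : Y ⟶ Y) (he : e ≫ e = e) :
    e ∈ Through Y X ∨ 𝟙 Y - e ∈ Through Y X := by
  obtain ⟨N, hN0, hN⟩ := c.exists_prod_mem u l hp hl
  have key : ∀ e : End Y, e * e = e → l e = 0 → e ∈ Through Y X := by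
    intro e he h0
    have h1 := hN (List.replicate N e) (by simp) (fun t ht => by
      rw [List.eq_of_mem_replicate ht, h0])
    rw [List.prod_replicate] at h1
    obtain ⟨N, rfl⟩ : ∃ M, N = M + 1 := ⟨N - 1, by omega⟩
    have h2 : e ^ (N + 1) = e := IsIdempotentElem.pow_succ_eq N he
    rwa [h2] at h1
  have he' : (show End Y from e) * (show End Y from e) = (show End Y from e) := he
  have h1 : l (show End Y from e) * l (show End Y from e) = l (show End Y from e) := by
    rw [← map_mul, he']
  have h2 : l (show End Y from e) = 0 ∨ l (show End Y from e) = 1 := by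
    have h3 : l (show End Y from e) * (l (show End Y from e) - 1) = 0 := by
      rw [mul_sub, h1, mul_one, sub_self]
    rcases mul_eq_zero.1 h3 with h | h
    · exact Or.inl h
    · exact Or.inr (sub_eq_zero.1 h)
  rcases h2 with h | h
  · exact Or.inl (key _ he' h)
  · right
    refine key ((1 : End Y) - (show End Y from e)) ?_ ?_
    · rw [mul_sub, sub_mul, sub_mul, he', mul_one, one_mul]
      simp
    · rw [map_sub, map_one, h, sub_self]

/-- The compositions `Y ⟶ X ⟶ X ⟶ Y` with a product of `q` homologically trivial correspondences in the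
middle. -/
def Chain {Λ : Type*} [Field Λ] (coh : V ⥤ ModuleCat.{0} Λ) (Y X : V) (q : ℕ) : AddSubgroup (Y ⟶ Y) :=
  AddSubgroup.closure {t | ∃ (a : Y ⟶ X) (L : List (End X)) (b : X ⟶ Y), L.length = q ∧
    (∀ x ∈ L, coh.map (x : X ⟶ X) = 0) ∧ t = a ≫ (L.prod : X ⟶ X) ≫ b}

lemma chain_mul {Λ : Type*} [Field Λ] (coh : V ⥤ ModuleCat.{0} Λ) [coh.Additive] {q : ℕ}
    {s p t : Y ⟶ Y} (hs : s ∈ Chain coh Y X q) (hp : coh.map p = 0) (ht : t ∈ Through Y X) :
    s ≫ p ≫ t ∈ Chain coh Y X (q + 1) := by
  refine AddSubgroup.closure_induction (p := fun s _ => s ≫ p ≫ t ∈ Chain coh Y X (q + 1))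
    ?_ ?_ ?_ ?_ hs
  · rintro _ ⟨a, L, b, hL, hL', rfl⟩
    refine AddSubgroup.closure_induction
      (p := fun t _ => (a ≫ (L.prod : X ⟶ X) ≫ b) ≫ p ≫ t ∈ Chain coh Y X (q + 1))
      ?_ ?_ ?_ ?_ ht
    · rintro _ ⟨a', b', rfl⟩
      refine AddSubgroup.subset_closure ⟨a, (show End X from b ≫ p ≫ a') :: L, b', ?_, ?_, ?_⟩
      · rw [List.length_cons, hL]
      · intro x hx
        rcases List.mem_cons.1 hx with rfl | h
        · change coh.map (b ≫ p ≫ a') = 0
          rw [coh.map_comp, coh.map_comp, hp, Limits.zero_comp, Limits.comp_zero]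
        · exact hL' x h
      · rw [List.prod_cons]
        change (a ≫ (L.prod : X ⟶ X) ≫ b) ≫ p ≫ a' ≫ b' =
          a ≫ ((L.prod : X ⟶ X) ≫ (b ≫ p ≫ a')) ≫ b'
        simp only [Category.assoc]
    · rw [Limits.comp_zero, Limits.comp_zero]; exact AddSubgroup.zero_mem _
    · intro x y _ _ hx hy
      rw [Preadditive.comp_add, Preadditive.comp_add]; exact AddSubgroup.add_mem _ hx hy
    · intro x _ hx
      rw [Preadditive.comp_neg, Preadditive.comp_neg]; exact AddSubgroup.neg_mem _ hx
  · rw [Limits.zero_comp]; exact AddSubgroup.zero_mem _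
  · intro x y _ _ hx hy
    rw [Preadditive.add_comp]; exact AddSubgroup.add_mem _ hx hy
  · intro x _ hx
    rw [Preadditive.neg_comp]; exact AddSubgroup.neg_mem _ hx

lemma through_le_chain {Λ : Type*} [Field Λ] (coh : V ⥤ ModuleCat.{0} Λ) {t : Y ⟶ Y}
    (ht : t ∈ Through Y X) : t ∈ Chain coh Y X 0 := by
  refine AddSubgroup.closure_induction (p := fun t _ => t ∈ Chain coh Y X 0) ?_ ?_ ?_ ?_ ht
  · rintro _ ⟨a, b, rfl⟩
    refine AddSubgroup.subset_closure ⟨a, [], b, rfl, by simp, ?_⟩
    rw [List.prod_nil]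
    change a ≫ b = a ≫ 𝟙 X ≫ b
    rw [Category.id_comp]
  · exact AddSubgroup.zero_mem _
  · exact fun _ _ _ _ ha hb => AddSubgroup.add_mem _ ha hb
  · exact fun _ _ ha => AddSubgroup.neg_mem _ ha

lemma mul_assoc_chain (a b d : End Y) : a * (b * d) = ((d : Y ⟶ Y) ≫ (b : Y ⟶ Y) ≫ (a : Y ⟶ Y)) :=
  (Category.assoc _ _ _)

/-- If the homologically trivial self-correspondences of `X` form a nilpotent ring, and products of
`N` homologically trivial self-correspondences of `Y` factor through `X`, then the homologically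
trivial self-correspondences of `Y` form a nilpotent ring. -/
theorem nilpotent_of_through {Λ : Type*} [Field Λ] (coh : V ⥤ ModuleCat.{0} Λ) [coh.Additive]
    {M N : ℕ} (hN : 0 < N) (hX : ∀ L : List (End X), L.length = M → (∀ x ∈ L, coh.map (x : X ⟶ X) = 0) →
      L.prod = 0)
    (hY : ∀ L : List (End Y), L.length = N → (∀ x ∈ L, coh.map (x : Y ⟶ Y) = 0) →
      L.prod ∈ Through Y X) :
    ∀ L : List (End Y), L.length = N * (2 * M + 1) → (∀ x ∈ L, coh.map (x : Y ⟶ Y) = 0) →
      L.prod = 0 := by
  have hprod : ∀ L : List (End Y), L ≠ [] → (∀ x ∈ L, coh.map (x : Y ⟶ Y) = 0) →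
      coh.map (L.prod : Y ⟶ Y) = 0 := by
    intro L hL h
    cases L with
    | nil => exact absurd rfl hL
    | cons a L =>
      rw [List.prod_cons]
      change coh.map ((L.prod : Y ⟶ Y) ≫ (a : Y ⟶ Y)) = 0
      rw [coh.map_comp, h a List.mem_cons_self, Limits.comp_zero]
  -- products of `N (2 q + 1)` factors
  have key : ∀ (q : ℕ) (L : List (End Y)), L.length = N * (2 * q + 1) →
      (∀ x ∈ L, coh.map (x : Y ⟶ Y) = 0) → (L.prod : Y ⟶ Y) ∈ Chain coh Y X q := by
    intro q
    induction q with
    | zero =>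
      intro L hL h
      exact through_le_chain coh (hY L (by rw [hL]; ring) h)
    | succ q ih =>
      intro L hL h
      have h1 : L = L.take N ++ ((L.drop N).take N ++ (L.drop N).drop N) := by
        rw [List.take_append_drop, List.take_append_drop]
      rw [h1, List.prod_append, List.prod_append, mul_assoc_chain]
      have hlen : L.length = N + (N + N * (2 * q + 1)) := by rw [hL]; ring
      refine chain_mul coh (ih _ ?_ ?_) (hprod _ ?_ ?_) (hY _ ?_ ?_)
      · rw [List.length_drop, List.length_drop, hlen]; omega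
      · exact fun x hx => h x (List.mem_of_mem_drop (List.mem_of_mem_drop hx))
      · intro h0
        have h2 := congrArg List.length h0
        rw [List.length_take, List.length_drop, hlen, List.length_nil] at h2
        omega
      · exact fun x hx => h x (List.mem_of_mem_drop (List.mem_of_mem_take hx))
      · rw [List.length_take, hlen]; omega
      · exact fun x hx => h x (List.mem_of_mem_take hx)
  intro L hL h
  have h1 := key M L hL h
  refine AddSubgroup.closure_induction (p := fun t _ => t = 0) ?_ rfl ?_ ?_ h1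
  · rintro _ ⟨a, L', b, hL', h2, rfl⟩
    have h3 := hX L' hL' h2
    rw [h3]
    change a ≫ (0 : X ⟶ X) ≫ b = 0
    rw [Limits.zero_comp, Limits.comp_zero]
  · rintro _ _ _ _ rfl rfl
    exact add_zero 0
  · rintro _ _ rfl
    exact neg_zero

end

end Pool.Agent.Lib.NilDescent
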