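import Pool.Agent.Lib.NilDescent.Final
import Mathlib.RingTheory.TensorProduct.IsBaseChangeHom

/-!
# The generalised Bloch conjecture up to nilpotence
-/

set_option autoImplicit false

open TensorProduct

namespace Pool.Agent.Lib.NilDescent

open Pool.Agent.Lib.OrlovCI

variable {T : Type*} [Ring T] [Algebra ℚ T] {Γ : Type*} [Group Γ] [MulSemiringAction Γ T]
  {A : Type*} [CommRing A] [Algebra ℚ A] {c : Restriction T A} {H : Type*} [AddCommGroup H]
  [Module ℚ H] {P : Type*} [Group P] {Z : Type*} [AddCommGroup Z] [Module T Z] {ι : Type*}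
  [Fintype ι]

lemma act_sub_scalar (h : Cohomology Γ c ℚ H) (t : T) (q : ℚ) (v : H) :
    h.act (t - algebraMap ℚ T q) v = h.act t v - q • v := by
  rw [map_sub, AlgHom.commutes]
  rfl

/-- every correspondence is a scalar plus a nilpotent endomorphism on the homologically trivial
cycles -/
lemma exists_scalar_pow (hΓ : FiniteOrbits T Γ) (h : Cohomology Γ c ℚ H) {n : ℕ}
    (hn : NilpotentOverK h n) (m : Monodromy h P) (z : ChowModule h Z ι) (t : T) :
    ∃ (q : ℚ) (N : ℕ), (∀ v ∈ h.van, h.act t v = q • v) ∧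
      ∀ x : Z, z.cl x = 0 → (t - algebraMap ℚ T q) ^ N • x = 0 := by
  obtain ⟨q, hq⟩ := exists_scalar m t
  obtain ⟨N, hN⟩ := exists_pow_smul_eq_zero hΓ h hn z (t := t - algebraMap ℚ T q) (fun v hv => by
    rw [act_sub_scalar, hq v hv, sub_self])
  exact ⟨q, N, hq, hN⟩

/-- action on the vanishing cohomology with complex coefficients -/
lemma baseChange_van (h : Cohomology Γ c ℚ H) {t : T} {q : ℚ}
    (hq : ∀ v ∈ h.van, h.act t v = q • v) {ω : ℂ ⊗[ℚ] H} (hω : ω ∈ vanC h) :
    (h.act t).baseChange ℂ ω = (q : ℂ) • ω := by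
  rw [vanC, Submodule.baseChange_eq_span] at hω
  induction hω using Submodule.span_induction with
  | mem x hx =>
    obtain ⟨v, hv, rfl⟩ := hx
    have h1 : h.act t v = q • v := hq v hv
    change (h.act t).baseChange ℂ ((1 : ℂ) ⊗ₜ[ℚ] v) = (q : ℂ) • ((1 : ℂ) ⊗ₜ[ℚ] v)
    rw [LinearMap.baseChange_tmul, h1, TensorProduct.tmul_smul, TensorProduct.smul_tmul',
      TensorProduct.smul_tmul']
    congr 1
  | zero => rw [map_zero, smul_zero]
  | add x y _ _ hx hy => rw [map_add, hx, hy, smul_add]
  | smul a x _ hx => rw [map_smul, hx, smul_comm]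

/-- a scalar different from zero plus a nilpotent endomorphism is invertible -/
lemma exists_inverse (h : Cohomology Γ c ℚ H) (z : ChowModule h Z ι) {t : T} {q : ℚ} (hq : q ≠ 0)
    {N : ℕ} (hN : ∀ x : Z, z.cl x = 0 → (t - algebraMap ℚ T q) ^ N • x = 0) :
    ∃ s : T, ∀ x : Z, z.cl x = 0 → s • t • x = x ∧ t • s • x = x := by
  -- `(X - q) ^ N` is prime to `X`
  have hcop : IsCoprime (Polynomial.X : Polynomial ℚ) ((Polynomial.X - Polynomial.C q) ^ N) := by
    refine IsCoprime.pow_right ?_
    have h0 := Polynomial.isCoprime_X_sub_C_of_isUnit_sub (R := ℚ) (a := 0) (b := q)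
      (isUnit_iff_ne_zero.2 (by rw [zero_sub]; exact neg_ne_zero.2 hq))
    rwa [map_zero, sub_zero] at h0
  obtain ⟨a, b, hab⟩ := hcop
  have h1 : Polynomial.aeval t ((Polynomial.X - Polynomial.C q) ^ N) =
      (t - algebraMap ℚ T q) ^ N := by
    rw [map_pow, map_sub, Polynomial.aeval_X, Polynomial.aeval_C]
  have h2 : Polynomial.aeval t a * t + Polynomial.aeval t b * (t - algebraMap ℚ T q) ^ N = 1 := by
    have h3 := congrArg (Polynomial.aeval t) hab
    rw [map_add, map_mul, map_mul, h1, Polynomial.aeval_X, map_one] at h3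
    exact h3
  have hcomm : Polynomial.aeval t a * t = t * Polynomial.aeval t a := by
    have h4 : Commute a Polynomial.X := Commute.all _ _
    have h5 := h4.map (Polynomial.aeval t)
    rw [Polynomial.aeval_X] at h5
    exact h5
  refine ⟨Polynomial.aeval t a, fun x hx => ?_⟩
  have h6 : Polynomial.aeval t a • t • x = x := by
    have h7 : (Polynomial.aeval t a * t + Polynomial.aeval t b * (t - algebraMap ℚ T q) ^ N) • x =
        x := by rw [h2, one_smul]
    rw [add_smul, mul_smul, mul_smul, hN x hx, smul_zero, add_zero] at h7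
    exact h7
  refine ⟨h6, ?_⟩
  rw [← mul_smul, ← hcomm, mul_smul]
  exact h6

end Pool.Agent.Lib.NilDescent
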