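import Pool.Agent.Lib.OrlovCI.Descent
import Mathlib.GroupTheory.Index

/-!
# Very general members of complete families: definitions

`X` is the geometric generic member of the family, over the algebraic closure of the function field
`K` of the parameter space (over `ℂ`: a very general member). `T` is the ring of the
self-correspondences of all degrees of `X` (Chow groups with rational coefficients), and `Γ` is the
Galois group of `K`.
-/

set_option autoImplicit false

open TensorProduct

namespace Pool.Agent.Lib.NilDescent

open Pool.Agent.Lib.OrlovCI

variable {T : Type*} [Ring T] [Algebra ℚ T] {Γ : Type*} [Group Γ] [MulSemiringAction Γ T]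
  {A : Type*} [CommRing A] [Algebra ℚ A] {c : Restriction T A} {H : Type*} [AddCommGroup H]
  [Module ℚ H]

/-- Every correspondence is defined over a finite Galois extension of `K`. -/
def FiniteOrbits (T : Type*) [Ring T] (Γ : Type*) [Group Γ] [MulSemiringAction Γ T] : Prop :=
  ∀ t : T, ∃ U : Subgroup Γ, U.Normal ∧ U.FiniteIndex ∧ ∀ g ∈ U, g • t = t

/-- The monodromy group `Π` of the family acts on the cohomology `H` of the fibres. Every
correspondence is defined over a finite covering of the parameter space, so it commutes with a
subgroup of finite index; and (big monodromy) endomorphisms of `H` which commute with a subgroup of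
finite index act as rational scalars on the vanishing cohomology. -/
structure Monodromy (h : Cohomology Γ c ℚ H) (P : Type*) [Group P] where
  rep : P →* (H →ₗ[ℚ] H)
  comm : ∀ t : T, ∃ V : Subgroup P, V.FiniteIndex ∧
    ∀ g ∈ V, ∀ v : H, h.act t (rep g v) = rep g (h.act t v)
  scalar : ∀ V : Subgroup P, V.FiniteIndex → ∀ f : H →ₗ[ℚ] H,
    (∀ g ∈ V, ∀ v : H, f (rep g v) = rep g (f v)) → ∃ q : ℚ, ∀ v ∈ h.van, f v = q • v

/-- The Chow groups `Z` of `X` as a module over the correspondences, with the class map to `H`.
The exterior product `x × y` acts by `z ↦ deg (y z) x`, so it kills the homologically trivial cycles.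
The dual bases `e` and `e'` of the classes restricted from `P` split off the Tate motives: the
remaining cohomology is the vanishing cohomology. -/
structure ChowModule (h : Cohomology Γ c ℚ H) (Z : Type*) [AddCommGroup Z] [Module T Z] (ι : Type*)
    [Fintype ι] where
  cl : Z →+ H
  cl_smul : ∀ (t : T) (z : Z), cl (t • z) = h.act t (cl z)
  prod_smul : ∀ (x y : A) (z : Z), cl z = 0 → c.prod x y • z = 0
  e : ι → A
  e' : ι → A
  split : ∀ v : H, v - ∑ a, h.act (c.prod (e' a) (e a)) v ∈ h.van

/-- The vanishing cohomology with complex coefficients. -/
noncomputable def vanC (h : Cohomology Γ c ℚ H) : Submodule ℂ (ℂ ⊗[ℚ] H) := h.van.baseChange ℂ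

end Pool.Agent.Lib.NilDescent
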