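import Pool.Agent.Lib.NilDescent.Nilpotent
import Mathlib.GroupTheory.Index
import Mathlib.Algebra.Ring.Action.Group

/-!
# Nilpotence descends through groups acting with finite orbits
-/

set_option autoImplicit false

namespace Pool.Agent.Lib.NilDescent

section

variable {T : Type*} [Ring T] {Γ : Type*} [Group Γ] [MulSemiringAction Γ T]

/-- the subring of the elements fixed by `U` -/
def fixedRing (T : Type*) [Ring T] {Γ : Type*} [Group Γ] [MulSemiringAction Γ T]
    (U : Subgroup Γ) : Subring T where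
  carrier := {t | ∀ g ∈ U, g • t = t}
  mul_mem' := by
    intro a b ha hb g hg
    rw [smul_mul', ha g hg, hb g hg]
  one_mem' := fun g _ => smul_one g
  add_mem' := by
    intro a b ha hb g hg
    rw [smul_add, ha g hg, hb g hg]
  zero_mem' := fun g _ => smul_zero g
  neg_mem' := by
    intro a ha g hg
    rw [smul_neg, ha g hg]

lemma mem_fixedRing {U : Subgroup Γ} {t : T} : t ∈ fixedRing T U ↔ ∀ g ∈ U, g • t = t := Iff.rfl

lemma smul_mem_fixedRing {U : Subgroup Γ} [U.Normal] (g : Γ) {t : T} (ht : t ∈ fixedRing T U) :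
    g • t ∈ fixedRing T U := by
  intro u hu
  have h1 : g⁻¹ * u * g ∈ U := by
    have h2 := (inferInstance : U.Normal).conj_mem u hu g⁻¹
    rwa [inv_inv] at h2
  have h3 := ht _ h1
  calc u • g • t = g • ((g⁻¹ * u * g) • t) := by
        rw [smul_smul, smul_smul]
        congr 1
        group
    _ = g • t := by rw [h3]

/-- the action of the group on the subring -/
@[reducible]
def fixedAction (U : Subgroup Γ) [U.Normal] : MulSemiringAction Γ (fixedRing T U) where
  smul g t := ⟨g • (t : T), smul_mem_fixedRing g t.2⟩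
  one_smul t := Subtype.ext (one_smul Γ (t : T))
  mul_smul g h t := Subtype.ext (mul_smul g h (t : T))
  smul_zero g := Subtype.ext (smul_zero g)
  smul_add g s t := Subtype.ext (smul_add g (s : T) (t : T))
  smul_one g := Subtype.ext (smul_one g)
  smul_mul g s t := Subtype.ext (smul_mul' g (s : T) (t : T))

/-- the action of the quotient group on the subring -/
@[reducible]
noncomputable def quotientAction (U : Subgroup Γ) [U.Normal] :
    MulSemiringAction (Γ ⧸ U) (fixedRing T U) :=
  letI := fixedAction (T := T) U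
  MulSemiringAction.compHom (fixedRing T U)
    (QuotientGroup.lift U (MulSemiringAction.toRingAut Γ (fixedRing T U)) (by
      intro u hu
      refine RingEquiv.ext (fun t => Subtype.ext ?_)
      exact t.2 u hu))

lemma quotientAction_smul (U : Subgroup Γ) [U.Normal] (g : Γ) (t : fixedRing T U) :
    letI := quotientAction (T := T) U
    (((QuotientGroup.mk g : Γ ⧸ U) • t : fixedRing T U) : T) = g • (t : T) := rfl

/-- **Nilpotence descends.** `R` is a left ideal of `T`, stable under the group, such that the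
products of `n` invariant elements of `R` are zero. Then the elements of `R` which are fixed by a
normal subgroup `U` of finite index generate a nilpotent ring. -/
theorem exists_prodZero_fixed [Algebra ℚ T] {R : Ideal T} (hR : ∀ (g : Γ), ∀ r ∈ R, g • r ∈ R)
    {n : ℕ} (hn : ProdZero {r : T | r ∈ R ∧ ∀ g : Γ, g • r = r} n) (U : Subgroup Γ) [U.Normal]
    [U.FiniteIndex] : ∃ N : ℕ, ProdZero {r : T | r ∈ R ∧ ∀ g ∈ U, g • r = r} N := by
  let _ := quotientAction (T := T) U
  have : Finite (Γ ⧸ U) := Subgroup.finite_quotient_of_finiteIndex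
  let R' : Ideal (fixedRing T U) :=
    { carrier := {t | (t : T) ∈ R}
      add_mem' := fun ha hb => R.add_mem ha hb
      zero_mem' := R.zero_mem
      smul_mem' := fun c x hx => R.mul_mem_left (c : T) hx }
  have hk : IsUnit ((Nat.card (Γ ⧸ U) : ℕ) : fixedRing T U) := by
    have h0 : (Nat.card (Γ ⧸ U) : ℚ) ≠ 0 := by exact_mod_cast Nat.card_pos.ne'
    have h1 : ∀ g : Γ, g • (algebraMap ℚ T (Nat.card (Γ ⧸ U) : ℚ)⁻¹) =
        algebraMap ℚ T (Nat.card (Γ ⧸ U) : ℚ)⁻¹ := by
      intro g
      exact RingHom.congr_fun (Subsingleton.elim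
        ((MulSemiringAction.toRingHom Γ T g).comp (algebraMap ℚ T)) (algebraMap ℚ T)) _
    refine ⟨⟨_, ⟨algebraMap ℚ T (Nat.card (Γ ⧸ U) : ℚ)⁻¹, fun g _ => h1 g⟩, ?_, ?_⟩, rfl⟩
    · refine Subtype.ext ?_
      change (((Nat.card (Γ ⧸ U) : ℕ) : fixedRing T U) : T) * algebraMap ℚ T _ = 1
      rw [Subring.coe_natCast, ← map_natCast (algebraMap ℚ T), ← map_mul, mul_inv_cancel₀ h0,
        map_one]
    · refine Subtype.ext ?_
      change algebraMap ℚ T _ * (((Nat.card (Γ ⧸ U) : ℕ) : fixedRing T U) : T) = 1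
      rw [Subring.coe_natCast, ← map_natCast (algebraMap ℚ T), ← map_mul, inv_mul_cancel₀ h0,
        map_one]
  have hprod : ∀ l : List (fixedRing T U), (fixedRing T U).subtype l.prod =
      (l.map (fixedRing T U).subtype).prod := fun l => map_list_prod (fixedRing T U).subtype l
  obtain ⟨N, hN⟩ := exists_prodZero (G := Γ ⧸ U) (S := fixedRing T U) hk (R := R') (n := n)
    (by
      intro g r hr
      obtain ⟨g, rfl⟩ := QuotientGroup.mk_surjective g
      exact hR g _ hr)
    (by
      intro l hl hlR
      refine Subtype.ext ?_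
      refine (hprod l).trans ?_
      refine hn _ (by rw [List.length_map, hl]) ?_
      intro x hx
      obtain ⟨t, ht, rfl⟩ := List.mem_map.1 hx
      obtain ⟨h1, h2⟩ := hlR t ht
      exact ⟨h1, fun g => congrArg Subtype.val (h2 (QuotientGroup.mk g))⟩)
  refine ⟨N, fun l hl hlR => ?_⟩
  let l' : List (fixedRing T U) := l.attach.map
    (fun x : {x // x ∈ l} => (⟨x.1, (hlR x.1 x.2).2⟩ : fixedRing T U))
  have h1 : l'.map (fixedRing T U).subtype = l := by
    rw [List.map_map]
    exact List.attach_map_subtype_val l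
  have h2 := hN l' (by rw [List.length_map, List.length_attach, hl]) (by
    intro x hx
    obtain ⟨y, _, rfl⟩ := List.mem_map.1 hx
    exact (hlR y.1 y.2).1)
  have h3 := hprod l'
  rw [h1, h2, map_zero] at h3
  exact h3.symm

/-- The elements of `R` with finite orbits are nilpotent, and finitely many of them generate a
nilpotent ring. -/
theorem exists_prodZero_finite [Algebra ℚ T] {R : Ideal T} (hR : ∀ (g : Γ), ∀ r ∈ R, g • r ∈ R)
    {n : ℕ} (hn : ProdZero {r : T | r ∈ R ∧ ∀ g : Γ, g • r = r} n)
    (hΓ : ∀ t : T, ∃ U : Subgroup Γ, U.Normal ∧ U.FiniteIndex ∧ ∀ g ∈ U, g • t = t)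
    (s : Finset T) (hs : ∀ t ∈ s, t ∈ R) : ∃ N : ℕ, ProdZero (s : Set T) N := by
  classical
  have key : ∀ s : Finset T, ∃ U : Subgroup Γ, U.Normal ∧ U.FiniteIndex ∧
      ∀ t ∈ s, ∀ g ∈ U, g • t = t := by
    intro s
    induction s using Finset.induction_on with
    | empty => exact ⟨⊤, inferInstance, inferInstance, by simp⟩
    | insert a s ha ih =>
      obtain ⟨U, hU, hU', h1⟩ := ih
      obtain ⟨V, hV, hV', h2⟩ := hΓ a
      refine ⟨U ⊓ V, inferInstance, inferInstance, ?_⟩
      intro t ht g hg
      rcases Finset.mem_insert.1 ht with rfl | h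
      · exact h2 g hg.2
      · exact h1 t h g hg.1
  obtain ⟨U, hU, hU', h1⟩ := key s
  obtain ⟨N, hN⟩ := exists_prodZero_fixed hR hn U
  exact ⟨N, fun l hl hls => hN l hl (fun x hx => ⟨hs x (hls x hx), h1 x (hls x hx)⟩)⟩

end

end Pool.Agent.Lib.NilDescent
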