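import Pool.Agent.Lib.NilDescent.Defs
import Pool.Agent.Lib.NilDescent.Profinite
import Pool.Agent.Lib.OrlovCI.NilK
import Mathlib.LinearAlgebra.FiniteDimensional.Basic
import Mathlib.FieldTheory.Minpoly.Field

/-!
# Correspondences of very general members
-/

set_option autoImplicit false

open TensorProduct

namespace Pool.Agent.Lib.NilDescent

open Pool.Agent.Lib.OrlovCI

variable {T : Type*} [Ring T] [Algebra ℚ T] {Γ : Type*} [Group Γ] [MulSemiringAction Γ T]
  {A : Type*} [CommRing A] [Algebra ℚ A] {c : Restriction T A} {H : Type*} [AddCommGroup H]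
  [Module ℚ H]

/-- Products of `n` homologically trivial correspondences over `K` are zero. -/
def NilpotentOverK (h : Cohomology Γ c ℚ H) (n : ℕ) : Prop :=
  ∀ l : List T, l.length = n → (∀ t ∈ l, h.act t = 0 ∧ ∀ g : Γ, g • t = t) → l.prod = 0

lemma exists_prodZero_of_finset (hΓ : FiniteOrbits T Γ) (h : Cohomology Γ c ℚ H) {n : ℕ}
    (hn : NilpotentOverK h n) (s : Finset T) (hs : ∀ t ∈ s, h.act t = 0) :
    ∃ N : ℕ, ProdZero (s : Set T) N := by
  refine exists_prodZero_finite (Γ := Γ) (R := RingHom.ker h.act) (n := n) ?_ ?_ hΓ s hs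
  · intro g r hr
    exact h.act_smul g r hr
  · intro l hl hl'
    exact hn l hl hl'

lemma isNilpotent_of_act (hΓ : FiniteOrbits T Γ) (h : Cohomology Γ c ℚ H) {n : ℕ}
    (hn : NilpotentOverK h n) {t : T} (ht : h.act t = 0) : IsNilpotent t := by
  obtain ⟨N, hN⟩ := exists_prodZero_of_finset hΓ h hn {t} (by simpa using ht)
  refine ⟨N, ?_⟩
  have := hN (List.replicate N t) (List.length_replicate) (by
    intro x hx
    rw [List.eq_of_mem_replicate hx]
    simp)
  rwa [List.prod_replicate] at this

/-- The inverse of an injective endomorphism is a polynomial. -/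
lemma exists_poly_inv {V : Type*} [AddCommGroup V] [Module ℚ V] [FiniteDimensional ℚ V]
    (a : Module.End ℚ V) (ha : Function.Injective a) :
    ∃ q : Polynomial ℚ, Polynomial.aeval a (Polynomial.X * q) = 1 := by
  have hint : IsIntegral ℚ a := Algebra.IsIntegral.isIntegral _
  set p := minpoly ℚ a with hp
  have hp0 : Polynomial.aeval a p = 0 := minpoly.aeval ℚ _
  have hpne : p ≠ 0 := minpoly.ne_zero hint
  have hc : p.coeff 0 ≠ 0 := by
    intro h0
    obtain ⟨q, hq⟩ := Polynomial.X_dvd_iff.2 h0
    have hqne : q ≠ 0 := by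
      rintro rfl
      exact hpne (by rw [hq, mul_zero])
    have h1 : Polynomial.aeval a q = 0 := by
      rw [hq, map_mul, Polynomial.aeval_X] at hp0
      ext v
      have h2 := LinearMap.congr_fun hp0 v
      have h3 : a (Polynomial.aeval a q v) = a 0 := by
        rw [map_zero]
        exact h2
      exact ha h3
    have h2 := Polynomial.natDegree_le_natDegree (minpoly.degree_le_of_ne_zero ℚ a hqne h1)
    rw [← hp, hq, Polynomial.natDegree_X_mul hqne] at h2
    omega
  refine ⟨Polynomial.C (-(p.coeff 0)⁻¹) * p.divX, ?_⟩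
  have h1 : Polynomial.X * p.divX = p - Polynomial.C (p.coeff 0) := by
    rw [eq_sub_iff_add_eq, mul_comm]
    exact Polynomial.divX_mul_X_add p
  have h2 : (Polynomial.C (p.coeff 0)⁻¹ * Polynomial.C (p.coeff 0) : Polynomial ℚ) = 1 := by
    rw [← map_mul, inv_mul_cancel₀ hc, map_one]
  have h3 : Polynomial.X * (Polynomial.C (-(p.coeff 0)⁻¹) * p.divX) =
      1 - Polynomial.C (p.coeff 0)⁻¹ * p := by
    rw [← h2, map_neg]
    calc Polynomial.X * (-Polynomial.C (p.coeff 0)⁻¹ * p.divX) =
        -Polynomial.C (p.coeff 0)⁻¹ * (Polynomial.X * p.divX) := by ring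
      _ = _ := by rw [h1]; ring
  rw [h3, map_sub, map_mul, hp0, mul_zero, sub_zero, map_one]

/-- correspondences which are bijective on the cohomology are invertible -/
lemma isUnit_of_injective [FiniteDimensional ℚ H] (hΓ : FiniteOrbits T Γ)
    (h : Cohomology Γ c ℚ H) {n : ℕ} (hn : NilpotentOverK h n) {t : T}
    (ht : Function.Injective (h.act t)) : IsUnit t := by
  obtain ⟨q, hq⟩ := exists_poly_inv (h.act t) ht
  set s : T := Polynomial.aeval t q with hs
  have hcomm : Commute t s := by
    have h1 : Commute (Polynomial.X : Polynomial ℚ) q := Commute.all _ _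
    have h2 := h1.map (Polynomial.aeval t)
    rwa [Polynomial.aeval_X] at h2
  have h1 : h.act (1 - t * s) = 0 := by
    have h3 : t * s = Polynomial.aeval t (Polynomial.X * q) := by
      rw [map_mul, Polynomial.aeval_X]
    rw [map_sub, map_one, h3, ← Polynomial.aeval_algHom_apply, hq, sub_self]
  have h2 : IsUnit (1 - (1 - t * s)) := (isNilpotent_of_act hΓ h hn h1).isUnit_one_sub
  rw [sub_sub_cancel] at h2
  exact (hcomm.isUnit_mul_iff.1 h2).1

section Action

variable {P : Type*} [Group P] {Z : Type*} [AddCommGroup Z] [Module T Z] {ι : Type*} [Fintype ι]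

lemma exists_scalar {h : Cohomology Γ c ℚ H} (m : Monodromy h P) (t : T) :
    ∃ q : ℚ, ∀ v ∈ h.van, h.act t v = q • v := by
  obtain ⟨V, hV, hcomm⟩ := m.comm t
  exact m.scalar V hV (h.act t) hcomm

/-- the projector onto the variable part -/
noncomputable def ChowModule.proj {h : Cohomology Γ c ℚ H} (z : ChowModule h Z ι) : T :=
  1 - ∑ a, c.prod (z.e' a) (z.e a)

lemma ChowModule.act_proj_mem {h : Cohomology Γ c ℚ H} (z : ChowModule h Z ι) (v : H) :
    h.act z.proj v ∈ h.van := by
  have h1 : h.act z.proj v = v - ∑ a, h.act (c.prod (z.e' a) (z.e a)) v := by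
    rw [ChowModule.proj, map_sub, map_one, map_sum, LinearMap.sub_apply, LinearMap.sum_apply]
    rfl
  rw [h1]
  exact z.split v

lemma ChowModule.proj_smul {h : Cohomology Γ c ℚ H} (z : ChowModule h Z ι) {x : Z}
    (hx : z.cl x = 0) : z.proj • x = x := by
  rw [ChowModule.proj, sub_smul, one_smul, Finset.sum_smul, Finset.sum_eq_zero, sub_zero]
  intro a _
  exact z.prod_smul _ _ x hx

/-- a correspondence which kills the vanishing cohomology is nilpotent on the homologically trivial
cycles -/
lemma exists_pow_smul_eq_zero (hΓ : FiniteOrbits T Γ) (h : Cohomology Γ c ℚ H) {n : ℕ}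
    (hn : NilpotentOverK h n) (z : ChowModule h Z ι) {t : T} (ht : ∀ v ∈ h.van, h.act t v = 0) :
    ∃ N : ℕ, ∀ x : Z, z.cl x = 0 → t ^ N • x = 0 := by
  have h1 : h.act (z.proj * t * z.proj) = 0 := by
    ext v
    rw [map_mul, map_mul]
    change h.act z.proj (h.act t (h.act z.proj v)) = 0
    rw [ht _ (z.act_proj_mem v), map_zero]
  obtain ⟨N, hN⟩ := isNilpotent_of_act hΓ h hn h1
  have hcl : ∀ (x : Z), z.cl x = 0 → ∀ s : T, z.cl (s • x) = 0 := by
    intro x hx s
    rw [z.cl_smul, hx, map_zero]
  refine ⟨N, fun x hx => ?_⟩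
  have h2 : ∀ k : ℕ, t ^ k • x = (z.proj * t * z.proj) ^ k • x := by
    intro k
    induction k with
    | zero => rw [pow_zero, pow_zero]
    | succ k ih =>
      have h3 : z.cl (t ^ k • x) = 0 := hcl x hx _
      have h4 : z.cl (t • t ^ k • x) = 0 := hcl _ h3 _
      calc t ^ (k + 1) • x = t • t ^ k • x := by rw [pow_succ', mul_smul]
        _ = z.proj • t • z.proj • t ^ k • x := by rw [z.proj_smul h3, z.proj_smul h4]
        _ = (z.proj * t * z.proj) ^ (k + 1) • x := by
          rw [pow_succ', mul_smul, ← ih, mul_smul, mul_smul]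
  rw [h2, hN, zero_smul]

end Action

end Pool.Agent.Lib.NilDescent
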