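import Pool.Agent.Lib.NilDescent.Final

/-!
# Chow–Künneth decompositions and Murre's conjectures
-/

set_option autoImplicit false

open TensorProduct

namespace Pool.Agent.Lib.NilDescent

open Pool.Agent.Lib.OrlovCI

variable {T : Type*} [Ring T] [Algebra ℚ T] {Γ : Type*} [Group Γ] [MulSemiringAction Γ T]
  {A : Type*} [CommRing A] [Algebra ℚ A] {c : Restriction T A} {H : Type*} [AddCommGroup H]
  [Module ℚ H] {Z : Type*} [AddCommGroup Z] [Module T Z] {ι : Type*} [Fintype ι]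

/-- The Chow groups and the cohomology of `X` by degrees; `X` has dimension `n`. -/
structure Degrees {h : Cohomology Γ c ℚ H} (z : ChowModule h Z ι) (n : ℕ) where
  /-- the Chow group of the cycles of codimension `i` -/
  chow : ℕ → AddSubgroup Z
  /-- the cohomology in degree `j` -/
  coh : ℕ → Submodule ℚ H
  cl_mem : ∀ i, ∀ x ∈ chow i, z.cl x ∈ coh (2 * i)
  /-- the vanishing cohomology lies in the middle degree -/
  van_le : h.van ≤ coh n
  /-- the correspondences of degree `0` -/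
  zero : Subring T
  smul_mem : ∀ t ∈ zero, ∀ i, ∀ x ∈ chow i, t • x ∈ chow i

/-- A Chow–Künneth decomposition of `X`: orthogonal idempotent correspondences of degree `0` with
sum `1`, and `π j` acts as the identity on `H^j` and as zero on `H^m` for `m ≠ j`. -/
structure ChowKunneth {h : Cohomology Γ c ℚ H} {z : ChowModule h Z ι} {n : ℕ} (d : Degrees z n)
    (π : ℕ → T) : Prop where
  idem : ∀ j, π j * π j = π j
  orth : ∀ j m, j ≠ m → π j * π m = 0
  sum : ∑ j ∈ Finset.range (2 * n + 1), π j = 1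
  mem : ∀ j, π j ∈ d.zero
  act_self : ∀ j, ∀ v ∈ d.coh j, h.act (π j) v = v
  act_ne : ∀ j m, m ≠ j → ∀ v ∈ d.coh m, h.act (π j) v = 0

/-- The filtration `F^k CH^i(X) = (π^{2i-k} + ⋯ + π^0) CH^i(X)`. -/
noncomputable def Degrees.fil {h : Cohomology Γ c ℚ H} {z : ChowModule h Z ι} {n : ℕ}
    (d : Degrees z n) (π : ℕ → T) (k i : ℕ) : AddSubgroup Z :=
  (d.chow i).map (DistribSMul.toAddMonoidHom Z
    (∑ j ∈ (Finset.range (2 * n + 1)).filter (fun j => j + k ≤ 2 * i), π j))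

/-- Murre's conjectures for `X`. -/
structure Murre {h : Cohomology Γ c ℚ H} {z : ChowModule h Z ι} {n : ℕ} (d : Degrees z n) :
    Prop where
  A : ∃ π, ChowKunneth d π
  B : ∀ π, ChowKunneth d π → ∀ i, i ≤ n → d.fil π 0 i = d.chow i ∧ d.fil π (i + 1) i = ⊥
  C : ∀ π π', ChowKunneth d π → ChowKunneth d π' → ∀ k i, d.fil π k i = d.fil π' k i
  D : ∀ π, ChowKunneth d π → ∀ i, i ≤ n → d.fil π 1 i = d.chow i ⊓ z.cl.ker

section

variable {h : Cohomology Γ c ℚ H} {z : ChowModule h Z ι} {n : ℕ} {d : Degrees z n} {π : ℕ → T}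

lemma ChowModule.cl_smul_eq_zero (z : ChowModule h Z ι) {x : Z} (hx : z.cl x = 0) (s : T) :
    z.cl (s • x) = 0 := by
  rw [z.cl_smul, hx, map_zero]

lemma ChowKunneth.smul_eq_zero (p : ChowKunneth d π) (hΓ : FiniteOrbits T Γ) {m : ℕ}
    (hm : NilpotentOverK h m) {j : ℕ} (hj : j ≠ n) {x : Z} (hx : z.cl x = 0) : π j • x = 0 := by
  obtain ⟨N, hN⟩ := exists_pow_smul_eq_zero hΓ h hm z (t := π j)
    (fun v hv => p.act_ne j n hj.symm v (d.van_le hv))
  have hpow : ∀ k : ℕ, π j ^ (k + 1) = π j := by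
    intro k
    induction k with
    | zero => rw [zero_add, pow_one]
    | succ k ih => rw [pow_succ, ih, p.idem]
  rcases N with _ | N
  · have h1 := hN _ (z.cl_smul_eq_zero hx (π j))
    rwa [pow_zero, one_smul] at h1
  · rw [← hpow N]
    exact hN x hx

lemma ChowKunneth.smul_eq_self (p : ChowKunneth d π) (hΓ : FiniteOrbits T Γ) {m : ℕ}
    (hm : NilpotentOverK h m) {x : Z} (hx : z.cl x = 0) : π n • x = x := by
  have h1 : (∑ j ∈ Finset.range (2 * n + 1), π j) • x = x := by rw [p.sum, one_smul]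
  rw [Finset.sum_smul, Finset.sum_eq_single n] at h1
  · exact h1
  · intro j _ hj
    exact p.smul_eq_zero hΓ hm hj hx
  · intro h2
    exact absurd (Finset.mem_range.2 (by omega)) h2

/-- the sum of the projectors with index in `S` -/
lemma ChowKunneth.sum_smul_hom (p : ChowKunneth d π) (hΓ : FiniteOrbits T Γ) {m : ℕ}
    (hm : NilpotentOverK h m) (S : Finset ℕ) {x : Z} (hx : z.cl x = 0) :
    (∑ j ∈ S, π j) • x = if n ∈ S then x else 0 := by
  rw [Finset.sum_smul]
  split_ifs with h1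
  · rw [Finset.sum_eq_single n]
    · exact p.smul_eq_self hΓ hm hx
    · intro j _ hj
      exact p.smul_eq_zero hΓ hm hj hx
    · intro h2
      exact absurd h1 h2
  · refine Finset.sum_eq_zero (fun j hj => p.smul_eq_zero hΓ hm (fun h2 => h1 (h2 ▸ hj)) hx)

lemma ChowKunneth.cl_sum_smul (p : ChowKunneth d π) (S : Finset ℕ) {i : ℕ} {x : Z}
    (hx : x ∈ d.chow i) :
    z.cl ((∑ j ∈ S, π j) • x) = if 2 * i ∈ S then z.cl x else 0 := by
  rw [Finset.sum_smul, map_sum]
  split_ifs with h1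
  · rw [Finset.sum_eq_single (2 * i)]
    · rw [z.cl_smul]
      exact p.act_self _ _ (d.cl_mem i x hx)
    · intro j _ hj
      rw [z.cl_smul]
      exact p.act_ne j (2 * i) hj.symm _ (d.cl_mem i x hx)
    · intro h2
      exact absurd h1 h2
  · refine Finset.sum_eq_zero (fun j hj => ?_)
    rw [z.cl_smul]
    exact p.act_ne j (2 * i) (fun h2 => h1 (h2 ▸ hj)) _ (d.cl_mem i x hx)

lemma ChowKunneth.sum_mem (p : ChowKunneth d π) (S : Finset ℕ) {i : ℕ} {x : Z}
    (hx : x ∈ d.chow i) : (∑ j ∈ S, π j) • x ∈ d.chow i := by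
  rw [Finset.sum_smul]
  exact AddSubgroup.sum_mem _ (fun j _ => d.smul_mem _ (p.mem j) i x hx)

lemma ChowKunneth.idem_sum (p : ChowKunneth d π) (S : Finset ℕ) :
    (∑ j ∈ S, π j) * (∑ j ∈ S, π j) = ∑ j ∈ S, π j := by
  rw [Finset.sum_mul]
  refine Finset.sum_congr rfl (fun j hj => ?_)
  rw [Finset.mul_sum, Finset.sum_eq_single j]
  · exact p.idem j
  · intro m _ hm
    exact p.orth j m hm.symm
  · intro h1
    exact absurd hj h1

lemma mem_fil {k i : ℕ} {x : Z} : x ∈ d.fil π k i ↔ ∃ y ∈ d.chow i,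
    (∑ j ∈ (Finset.range (2 * n + 1)).filter (fun j => j + k ≤ 2 * i), π j) • y = x := by
  rw [Degrees.fil, AddSubgroup.mem_map]
  rfl

/-- the steps `1 ≤ k ≤ 2i - n` of the filtration -/
lemma ChowKunneth.fil_hom (p : ChowKunneth d π) (hΓ : FiniteOrbits T Γ) {m : ℕ}
    (hm : NilpotentOverK h m) {k i : ℕ} (hk : 1 ≤ k) (hki : k + n ≤ 2 * i) :
    d.fil π k i = d.chow i ⊓ z.cl.ker := by
  have h1 : n ∈ (Finset.range (2 * n + 1)).filter (fun j => j + k ≤ 2 * i) := by
    rw [Finset.mem_filter, Finset.mem_range]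
    omega
  have h2 : 2 * i ∉ (Finset.range (2 * n + 1)).filter (fun j => j + k ≤ 2 * i) := by
    rw [Finset.mem_filter]
    omega
  ext x
  rw [mem_fil, AddSubgroup.mem_inf, AddMonoidHom.mem_ker]
  constructor
  · rintro ⟨y, hy, rfl⟩
    refine ⟨p.sum_mem _ hy, ?_⟩
    rw [p.cl_sum_smul _ hy, if_neg h2]
  · rintro ⟨hx, hx'⟩
    refine ⟨x, hx, ?_⟩
    rw [p.sum_smul_hom hΓ hm _ hx', if_pos h1]

/-- the steps after `2i - n` -/
lemma ChowKunneth.fil_bot (p : ChowKunneth d π) (hΓ : FiniteOrbits T Γ) {m : ℕ}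
    (hm : NilpotentOverK h m) {k i : ℕ} (hk : 1 ≤ k) (hki : 2 * i < k + n) :
    d.fil π k i = ⊥ := by
  have h1 : n ∉ (Finset.range (2 * n + 1)).filter (fun j => j + k ≤ 2 * i) := by
    rw [Finset.mem_filter]
    omega
  have h2 : 2 * i ∉ (Finset.range (2 * n + 1)).filter (fun j => j + k ≤ 2 * i) := by
    rw [Finset.mem_filter]
    omega
  rw [eq_bot_iff]
  intro x hx
  obtain ⟨y, hy, rfl⟩ := mem_fil.1 hx
  rw [AddSubgroup.mem_bot]
  have h3 := p.cl_sum_smul ((Finset.range (2 * n + 1)).filter (fun j => j + k ≤ 2 * i)) hy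
  rw [if_neg h2] at h3
  have h4 := p.sum_smul_hom hΓ hm
    ((Finset.range (2 * n + 1)).filter (fun j => j + k ≤ 2 * i)) h3
  rwa [if_neg h1, ← mul_smul, p.idem_sum] at h4

/-- the step `0` of the filtration -/
lemma ChowKunneth.fil_zero (p : ChowKunneth d π) (hΓ : FiniteOrbits T Γ) {m : ℕ}
    (hm : NilpotentOverK h m) {i : ℕ}
    (hi : 2 * i < n → ∀ x ∈ d.chow i, z.cl x = 0 → x = 0) :
    d.fil π 0 i = d.chow i := by
  set S := (Finset.range (2 * n + 1)).filter (fun j => j + 0 ≤ 2 * i) with hS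
  have key : ∀ x ∈ d.chow i, (∑ j ∈ S, π j) • x = x := by
    intro x hx
    have h1 : z.cl (x - (∑ j ∈ S, π j) • x) = 0 := by
      rw [map_sub, p.cl_sum_smul _ hx]
      split_ifs with h2
      · rw [sub_self]
      · -- `2 i > 2 n`
        have h3 : ¬ (2 * i ∈ Finset.range (2 * n + 1)) := by
          intro h4
          apply h2
          rw [hS, Finset.mem_filter]
          exact ⟨h4, by omega⟩
        have h4 := p.cl_sum_smul (Finset.range (2 * n + 1)) hx
        rw [p.sum, one_smul, if_neg h3] at h4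
        rw [h4, sub_zero]
    by_cases h2 : 2 * i < n
    · have h3 := hi h2 _ (AddSubgroup.sub_mem _ hx (p.sum_mem S hx)) h1
      exact (sub_eq_zero.1 h3).symm
    · have h3 : n ∈ S := by
        rw [hS, Finset.mem_filter, Finset.mem_range]
        omega
      have h4 := p.sum_smul_hom hΓ hm S h1
      rw [if_pos h3, smul_sub, ← mul_smul, p.idem_sum, sub_self] at h4
      exact (sub_eq_zero.1 h4.symm).symm
  ext x
  rw [mem_fil]
  constructor
  · rintro ⟨y, hy, rfl⟩
    exact p.sum_mem _ hy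
  · intro hx
    exact ⟨x, hx, key x hx⟩

/-- **Murre's conjectures for very general members.** -/
theorem murre_iff (hA : ∃ π, ChowKunneth d π) (hΓ : FiniteOrbits T Γ) {m : ℕ}
    (hm : NilpotentOverK h m) :
    Murre d ↔ ∀ i, 2 * i ≤ n → ∀ x ∈ d.chow i, z.cl x = 0 → x = 0 := by
  constructor
  · intro M i hi x hx hx'
    obtain ⟨π, p⟩ := hA
    have h1 := M.D π p i (by omega)
    rw [p.fil_bot hΓ hm le_rfl (by omega)] at h1
    have h2 : x ∈ d.chow i ⊓ z.cl.ker := ⟨hx, hx'⟩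
    rw [← h1] at h2
    exact AddSubgroup.mem_bot.1 h2
  · intro h0
    refine ⟨hA, fun π p i hi => ⟨p.fil_zero hΓ hm (fun h1 => h0 i h1.le), ?_⟩,
      fun π π' p p' k i => ?_, fun π p i hi => ?_⟩
    · exact p.fil_bot hΓ hm (by omega) (by omega)
    · rcases Nat.eq_zero_or_pos k with rfl | hk
      · rw [p.fil_zero hΓ hm (fun h1 => h0 i h1.le), p'.fil_zero hΓ hm (fun h1 => h0 i h1.le)]
      · rcases le_or_gt (k + n) (2 * i) with h1 | h1
        · rw [p.fil_hom hΓ hm hk h1, p'.fil_hom hΓ hm hk h1]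
        · rw [p.fil_bot hΓ hm hk h1, p'.fil_bot hΓ hm hk h1]
    · rcases le_or_gt (1 + n) (2 * i) with h1 | h1
      · exact p.fil_hom hΓ hm le_rfl h1
      · rw [p.fil_bot hΓ hm le_rfl h1, eq_comm, eq_bot_iff]
        intro x hx
        exact AddSubgroup.mem_bot.2 (h0 i (by omega) x hx.1 hx.2)

end

end Pool.Agent.Lib.NilDescent
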