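import Pool.Agent.Lib.OrlovCI.Maschke
import Mathlib.Algebra.Polynomial.GroupRingAction

/-!
# Nilpotence and finite groups of automorphisms

`S` is a ring with a finite group `G` of automorphisms, the order of `G` is invertible in `S`, and
`R` is a `G`-stable ideal. If the products of `n` invariant elements of `R` are zero, then `R` is
nilpotent (Bergman and Isaacs).
-/

set_option autoImplicit false

open Polynomial

namespace Pool.Agent.Lib.NilDescent

section

variable {S : Type*} [Ring S] {G : Type*} [Group G] [MulSemiringAction G S]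

/-- The products of `n` elements of the set `R` are zero. -/
def ProdZero (R : Set S) (n : ℕ) : Prop := ∀ l : List S, l.length = n → (∀ x ∈ l, x ∈ R) → l.prod = 0

/-- the polynomials with coefficients in `R` -/
def polyIdeal (R : Ideal S) : Ideal S[X] where
  carrier := {p | ∀ n, p.coeff n ∈ R}
  add_mem' := by
    intro p q hp hq n
    rw [coeff_add]
    exact R.add_mem (hp n) (hq n)
  zero_mem' := by
    intro n
    rw [coeff_zero]
    exact R.zero_mem
  smul_mem' := by
    intro p q hq n
    rw [smul_eq_mul, coeff_mul]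
    exact R.sum_mem fun x _ => R.mul_mem_left _ (hq x.2)

lemma mem_polyIdeal {R : Ideal S} {p : S[X]} : p ∈ polyIdeal R ↔ ∀ n, p.coeff n ∈ R := Iff.rfl

/-- If products of `n` elements of the additive group `B` are zero then polynomials with
coefficients in `B` are nilpotent. -/
lemma isNilpotent_of_coeff {B : AddSubgroup S} {n : ℕ} (hB : ProdZero (B : Set S) n) {p : S[X]}
    (hp : ∀ k, p.coeff k ∈ B) : IsNilpotent p := by
  classical
  refine ⟨n, ?_⟩
  -- products of lists of coefficients
  have key : ∀ (m : ℕ) (l : List S), l.length + m = n → (∀ x ∈ l, x ∈ B) →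
      C l.prod * p ^ m = 0 := by
    intro m
    induction m with
    | zero =>
      intro l hl hlB
      rw [hB l (by omega) hlB, map_zero, zero_mul]
    | succ m ih =>
      intro l hl hlB
      have h1 : C l.prod * p ^ (m + 1) =
          ∑ k ∈ p.support, C (l ++ [p.coeff k]).prod * (X ^ k * p ^ m) := by
        rw [pow_succ']
        conv_lhs =>
          enter [2, 1]
          rw [p.as_sum_support_C_mul_X_pow]
        rw [Finset.sum_mul, Finset.mul_sum]
        refine Finset.sum_congr rfl (fun k _ => ?_)
        rw [List.prod_append, List.prod_singleton, map_mul]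
        simp only [mul_assoc]
      rw [h1]
      refine Finset.sum_eq_zero (fun k _ => ?_)
      have h2 : X ^ k * p ^ m = p ^ m * X ^ k := (commute_X_pow (p ^ m) k)
      rw [h2, ← mul_assoc, ih (l ++ [p.coeff k]) (by rw [List.length_append]; simp; omega) (by
        intro x hx
        rcases List.mem_append.1 hx with h | h
        · exact hlB x h
        · rw [List.mem_singleton.1 h]
          exact hp k), zero_mul]
  have h := key n [] (by simp) (by simp)
  simpa using h

/-- If `1 - r X` is invertible then `r` is nilpotent. -/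
lemma isNilpotent_of_isUnit {r : S} (h : IsUnit (1 - C r * X : S[X])) : IsNilpotent r := by
  obtain ⟨u, hu⟩ := h
  set q : S[X] := ↑u⁻¹ with hq
  have h1 : (1 - C r * X) * q = 1 := by rw [← hu, hq, Units.mul_inv]
  have h2 : q = 1 + C r * (X * q) := by
    rw [sub_mul, one_mul, mul_assoc, sub_eq_iff_eq_add] at h1
    exact h1
  have h3 : ∀ n, q.coeff n = r ^ n := by
    intro n
    induction n with
    | zero =>
      rw [h2, coeff_add, coeff_C_mul, coeff_X_mul_zero, mul_zero, add_zero, coeff_one_zero, pow_zero]
    | succ n ih =>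
      rw [h2, coeff_add, coeff_C_mul, coeff_X_mul, coeff_one, if_neg (Nat.succ_ne_zero n), zero_add,
        ih, ← pow_succ']
  refine ⟨q.natDegree + 1, ?_⟩
  rw [← h3]
  exact coeff_eq_zero_of_natDegree_lt (Nat.lt_succ_self _)

/-- **Nil descent.** -/
theorem isNilpotent_of_invariants [Finite G] (hG : IsUnit ((Nat.card G : ℕ) : S)) {R : Ideal S}
    (hR : ∀ (g : G), ∀ r ∈ R, g • r ∈ R) {n : ℕ}
    (hn : ProdZero {r : S | r ∈ R ∧ ∀ g : G, g • r = r} n) {r : S} (hr : r ∈ R) :
    IsNilpotent r := by
  let B : AddSubgroup S :=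
    { carrier := {r : S | r ∈ R ∧ ∀ g : G, g • r = r}
      add_mem' := by
        rintro a b ⟨ha, ha'⟩ ⟨hb, hb'⟩
        exact ⟨R.add_mem ha hb, fun g => by rw [smul_add, ha', hb']⟩
      zero_mem' := ⟨R.zero_mem, fun g => smul_zero g⟩
      neg_mem' := by
        rintro a ⟨ha, ha'⟩
        exact ⟨R.neg_mem ha, fun g => by rw [smul_neg, ha']⟩ }
  apply isNilpotent_of_isUnit
  refine OrlovCI.isUnit_one_sub (G := G) (R := polyIdeal R) ?_ ?_ ?_ ?_
  · have h1 := hG.map (C : S →+* S[X])
    rwa [map_natCast] at h1
  · intro g p hp k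
    rw [Polynomial.coeff_smul]
    exact hR g _ (hp k)
  · intro p hp hpG
    have h1 : IsNilpotent p := by
      refine isNilpotent_of_coeff (B := B) hn (fun k => ⟨hp k, fun g => ?_⟩)
      rw [← Polynomial.coeff_smul, hpG]
    exact h1.isUnit_one_sub
  · intro k
    rw [coeff_C_mul, coeff_X]
    split_ifs
    · rw [mul_one]; exact hr
    · rw [mul_zero]; exact R.zero_mem

end

end Pool.Agent.Lib.NilDescent
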