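import Pool.Agent.Lib.NilDescent.RelFixed
import Pool.Agent.Lib.NilDescent.Defs

/-!
# Very general complete intersections in an arbitrary variety: zero-cycles

`X` is the geometric generic member of a family of complete intersections in any smooth projective
variety `P` (see `Section` and `Section.Family`); `T` is the ring of the self-correspondences of `X`
of all degrees, or of degree `0`.
-/

set_option autoImplicit false

namespace Pool.Agent.Lib.NilDescent

variable {T : Type*} [Ring T] [Algebra ℚ T] {Γ : Type*} [Group Γ] [MulSemiringAction Γ T]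
  {A : Type*} [CommRing A] [Algebra ℚ A] {C : Type*} [AddCommGroup C] [Module ℚ C]

/-- The action of the correspondences on the cohomology `H` of `X`. The vanishing cohomology `van` is
the kernel of the direct image to the cohomology of `P`; it is Galois invariant (`ℓ`-adically). -/
structure SectionCoh (c : Section T A C) (Γ : Type*) [Group Γ] [MulSemiringAction Γ T]
    (H : Type*) [AddCommGroup H] [Module ℚ H] where
  act : T →ₐ[ℚ] Module.End ℚ H
  van : Submodule ℚ H
  pull_van : ∀ x, ∀ v ∈ van, act (c.pull x) v = 0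
  act_smul : ∀ (g : Γ) (t : T), (∀ v ∈ van, act t v = 0) → ∀ v ∈ van, act (g • t) v = 0

variable {c : Section T A C} {H : Type*} [AddCommGroup H] [Module ℚ H]

/-- the correspondences which act as zero on the vanishing cohomology -/
def SectionCoh.kills (h : SectionCoh c Γ H) : Ideal T where
  carrier := {t | ∀ v ∈ h.van, h.act t v = 0}
  add_mem' := by
    intro a b ha hb v hv
    rw [map_add, LinearMap.add_apply, ha v hv, hb v hv, add_zero]
  zero_mem' := by
    intro v _
    rw [map_zero, LinearMap.zero_apply]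
  smul_mem' := by
    intro a b hb v hv
    rw [smul_eq_mul, map_mul]
    change h.act a (h.act b v) = 0
    rw [hb v hv, map_zero]

variable {W O Z : Type*} [AddCommGroup W] [Module ℚ W] [AddCommGroup O] [Module ℚ O]
  [AddCommGroup Z] [Module ℚ Z]

/-- the classes whose component in codimension `0` is not zero are invertible -/
lemma Section.isUnit_diag (c : Section T A C) (z : A) (h : c.aug z ≠ 0) : IsUnit (c.diag z) := by
  apply IsUnit.map
  have h1 : z - algebraMap ℚ A (c.aug z) ∈ RingHom.ker c.aug := by
    rw [RingHom.mem_ker, map_sub, AlgHom.commutes]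
    exact sub_self _
  have h2 : IsNilpotent (z - algebraMap ℚ A (c.aug z)) := by
    obtain ⟨m, hm⟩ := c.nilpotent
    refine ⟨m, ?_⟩
    have h3 := Ideal.pow_mem_pow h1 m
    rw [hm] at h3
    exact h3
  have h3 : IsUnit (algebraMap ℚ A (c.aug z)) := (isUnit_iff_ne_zero.2 h).map (algebraMap ℚ A)
  have h4 := h2.isUnit_add_left_of_commute h3 (Commute.all _ _)
  rwa [add_sub_cancel] at h4

/-- an invariant correspondence which is zero on the vanishing cohomology -/
lemma SectionCoh.exists_eq (h : SectionCoh c Γ H) (hv : h.van ≠ ⊥) (u : Section.Family c Γ W O Z)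
    {t : T} (ht : t ∈ h.kills) (htG : ∀ g : Γ, g • t = t) :
    ∃ (x : C) (z : A), c.aug z = 0 ∧ t = c.pull x + c.diag z := by
  obtain ⟨x, z, rfl⟩ := u.exists_eq t htG
  refine ⟨x, z, ?_, rfl⟩
  obtain ⟨v, hv1, hv2⟩ := (Submodule.ne_bot_iff _).1 hv
  by_contra h3
  obtain ⟨w, hw⟩ := c.isUnit_diag z h3
  have h2 : h.act (c.pull x + c.diag z) v = h.act (c.diag z) v := by
    rw [map_add, LinearMap.add_apply, h.pull_van x v hv1, zero_add]
  rw [ht v hv1] at h2
  apply hv2
  have h4 : h.act (↑w⁻¹ * ↑w : T) v = 0 := by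
    rw [map_mul, hw]
    change h.act ↑w⁻¹ (h.act (c.diag z) v) = 0
    rw [← h2, map_zero]
  rw [Units.inv_mul, map_one] at h4
  exact h4

/-- invariant correspondences which are zero on the vanishing cohomology -/
lemma SectionCoh.prod_mem (h : SectionCoh c Γ H) (hv : h.van ≠ ⊥) (u : Section.Family c Γ W O Z)
    {n : ℕ} (hn : RingHom.ker c.aug ^ n = ⊥) (L : List T) (hL : L.length = n)
    (hK : ∀ t ∈ L, t ∈ h.kills ∧ ∀ g : Γ, g • t = t) : L.prod ∈ c.through := by
  have key : ∀ L : List T, (∀ t ∈ L, t ∈ h.kills ∧ ∀ g : Γ, g • t = t) →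
      ∃ z ∈ RingHom.ker c.aug ^ L.length, L.prod - c.diag z ∈ c.through := by
    intro L
    induction L with
    | nil =>
      intro _
      exact ⟨1, by simp, by simp⟩
    | cons t L ih =>
      intro hK
      obtain ⟨z, hz, hz'⟩ := ih (fun s hs => hK s (List.mem_cons_of_mem t hs))
      obtain ⟨ht, ht'⟩ := hK t List.mem_cons_self
      obtain ⟨x, w, hw, rfl⟩ := h.exists_eq hv u ht ht'
      refine ⟨w * z, ?_, ?_⟩
      · rw [List.length_cons, pow_succ']
        exact Ideal.mul_mem_mul hw hz
      · have h1 : (c.pull x + c.diag w) * L.prod - c.diag (w * z) =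
            c.pull x * L.prod + c.diag w * (L.prod - c.diag z) := by
          rw [map_mul]; noncomm_ring
        rw [List.prod_cons, h1]
        exact c.through.add_mem (c.through.mul_mem_right _ (Section.pull_mem x))
          (c.through.mul_mem_left _ hz')
  obtain ⟨z, hz, hz'⟩ := key L hK
  rw [hL, hn] at hz
  have hz0 : z = 0 := hz
  rwa [hz0, map_zero, sub_zero] at hz'

/-- **Products of correspondences which are zero on the vanishing cohomology factor through the
ambient variety.** -/
theorem SectionCoh.exists_prod_mem (h : SectionCoh c Γ H) (hv : h.van ≠ ⊥)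
    (u : Section.Family c Γ W O Z) (U : Subgroup Γ) [U.Normal] [U.FiniteIndex] :
    ∃ N : ℕ, ∀ l : List T, l.length = N →
      (∀ t ∈ l, (∀ v ∈ h.van, h.act t v = 0) ∧ ∀ g ∈ U, g • t = t) → l.prod ∈ c.through := by
  obtain ⟨n, hn⟩ := c.nilpotent
  exact exists_prod_mem_fixed (I := c.through) (R := h.kills)
    (fun g t ht => u.smul_through g t ht) (fun g r hr => h.act_smul g r hr) (n := n)
    (fun L hL hK => h.prod_mem hv u hn L hL hK) U

/-- A power of a correspondence which is zero on the vanishing cohomology factors through `P`. -/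
theorem SectionCoh.exists_pow_mem (hΓ : FiniteOrbits T Γ) (h : SectionCoh c Γ H) (hv : h.van ≠ ⊥)
    (u : Section.Family c Γ W O Z) {t : T} (ht : ∀ v ∈ h.van, h.act t v = 0) :
    ∃ N : ℕ, t ^ N ∈ c.through := by
  obtain ⟨U, hU, hU', h1⟩ := hΓ t
  obtain ⟨N, hN⟩ := h.exists_prod_mem hv u U
  refine ⟨N, ?_⟩
  have h2 := hN (List.replicate N t) (by simp) (fun s hs => by
    rw [List.eq_of_mem_replicate hs]
    exact ⟨ht, h1⟩)
  rwa [List.prod_replicate] at h2

/-- The correspondences which factor through `P` act as zero on a module on which the `i^* x i_*` act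
as zero. -/
lemma through_smul {M : Type*} [AddCommGroup M] [Module T M] (hM : ∀ (x : C) (m : M),
    c.pull x • m = 0) {t : T} (ht : t ∈ c.through) (m : M) : t • m = 0 := by
  refine AddSubgroup.closure_induction (p := fun t _ => t • m = 0) ?_ ?_ ?_ ?_ ht
  · rintro _ ⟨a, x, b, rfl⟩
    rw [mul_smul, mul_smul, hM, smul_zero]
  · exact zero_smul T m
  · intro a b _ _ ha hb
    rw [add_smul, ha, hb, add_zero]
  · intro a _ ha
    rw [neg_smul, ha, neg_zero]

/-- The monodromy: the same as `Monodromy`, for an arbitrary ambient variety. -/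
structure SectionMonodromy (h : SectionCoh c Γ H) (Q : Type*) [Group Q] where
  rep : Q →* (H →ₗ[ℚ] H)
  comm : ∀ t : T, ∃ V : Subgroup Q, V.FiniteIndex ∧
    ∀ g ∈ V, ∀ v : H, h.act t (rep g v) = rep g (h.act t v)
  scalar : ∀ V : Subgroup Q, V.FiniteIndex → ∀ f : H →ₗ[ℚ] H,
    (∀ g ∈ V, ∀ v : H, f (rep g v) = rep g (f v)) → ∃ q : ℚ, ∀ v ∈ h.van, f v = q • v

/-- The Chow group of zero-cycles. `M` is `CH_0(X)_hom`, `N` is `CH_0(P)_hom`, `push` is the direct image
for the inclusion of `X` in `P`, and `pull x` acts as `i^* x i_*`. -/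
structure ZeroCycles (c : Section T A C) (M N : Type*) [AddCommGroup M] [Module T M]
    [AddCommGroup N] where
  push : M →+ N
  back : C → N →+ M
  pull_smul : ∀ (x : C) (m : M), c.pull x • m = back x (push m)

/-- **The generalised Bloch conjecture, up to nilpotence, for very general complete intersections in a
variety with trivial Chow group of zero-cycles.** -/
theorem SectionCoh.bloch (hΓ : FiniteOrbits T Γ) (h : SectionCoh c Γ H) (hv : h.van ≠ ⊥)
    (u : Section.Family c Γ W O Z) {Q : Type*} [Group Q] (m : SectionMonodromy h Q)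
    {M N : Type*} [AddCommGroup M] [Module T M] [AddCommGroup N] (z : ZeroCycles c M N)
    (h0 : ∀ x : N, x = 0) (t : T) :
    ∃ (q : ℚ) (n : ℕ), (∀ v ∈ h.van, h.act t v = q • v) ∧
      ∀ x : M, (t - algebraMap ℚ T q) ^ n • x = 0 := by
  obtain ⟨V, hV, h1⟩ := m.comm t
  obtain ⟨q, hq⟩ := m.scalar V hV (h.act t) h1
  obtain ⟨n, hn⟩ := h.exists_pow_mem hΓ hv u (t := t - algebraMap ℚ T q) (by
    intro v hv
    rw [map_sub, AlgHom.commutes, LinearMap.sub_apply, Module.algebraMap_end_apply, hq v hv,
      sub_self])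
  exact ⟨q, n, hq, fun x => through_smul (c := c) (fun y m => by
    rw [z.pull_smul, h0 (z.push m), map_zero]) hn x⟩

end Pool.Agent.Lib.NilDescent
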