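import Pool.Agent.Lib.NilDescent.Nilpotent
import Mathlib.RingTheory.TwoSidedIdeal.Operations
import Mathlib.RingTheory.LocalRing.RingHom.Basic

/-!
# Nilpotence modulo a two-sided ideal

The theorem of Bergman and Isaacs modulo a `G`-stable two-sided ideal, and the ring of
self-correspondences of a very general complete intersection `Y` in a variety `X`, modulo the
correspondences which factor through `X`.
-/

set_option autoImplicit false

namespace Pool.Agent.Lib.NilDescent

section

variable {S : Type*} [Ring S] {G : Type*} [Group G] [MulSemiringAction G S]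

/-- the action on the quotient -/
@[reducible]
def quotAction (I : Ideal S) [I.IsTwoSided] (hI : ∀ (g : G), ∀ t ∈ I, g • t ∈ I) :
    MulSemiringAction G (S ⧸ I) where
  smul g := Ideal.Quotient.lift I ((Ideal.Quotient.mk I).comp (MulSemiringAction.toRingHom G S g))
    (fun t ht => Ideal.Quotient.eq_zero_iff_mem.2 (hI g t ht))
  one_smul x := by
    obtain ⟨x, rfl⟩ := Ideal.Quotient.mk_surjective x
    exact congrArg (Ideal.Quotient.mk I) (one_smul G x)
  mul_smul g h x := by
    obtain ⟨x, rfl⟩ := Ideal.Quotient.mk_surjective x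
    exact congrArg (Ideal.Quotient.mk I) (mul_smul g h x)
  smul_zero g := map_zero _
  smul_add g x y := map_add _ x y
  smul_one g := map_one _
  smul_mul g x y := map_mul _ x y

/-- the ideal of the elements of `R` modulo `I` -/
def quotIdeal (I R : Ideal S) [I.IsTwoSided] : Ideal (S ⧸ I) where
  carrier := {x | ∃ r ∈ R, Ideal.Quotient.mk I r = x}
  add_mem' := by
    rintro _ _ ⟨a, ha, rfl⟩ ⟨b, hb, rfl⟩
    exact ⟨a + b, R.add_mem ha hb, map_add _ _ _⟩
  zero_mem' := ⟨0, R.zero_mem, map_zero _⟩
  smul_mem' := by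
    rintro c _ ⟨a, ha, rfl⟩
    obtain ⟨c, rfl⟩ := Ideal.Quotient.mk_surjective c
    exact ⟨c * a, R.mul_mem_left c ha, map_mul _ _ _⟩

/-- **The theorem of Bergman and Isaacs modulo an ideal.** -/
theorem exists_prod_mem [Algebra ℚ S] [Finite G] {I R : Ideal S} [I.IsTwoSided]
    (hI : ∀ (g : G), ∀ t ∈ I, g • t ∈ I) (hR : ∀ (g : G), ∀ r ∈ R, g • r ∈ R) {n : ℕ}
    (hn : ∀ l : List S, l.length = n → (∀ x ∈ l, x ∈ R ∧ ∀ g : G, g • x = x) → l.prod ∈ I) :
    ∃ N : ℕ, ∀ l : List S, l.length = N → (∀ x ∈ l, x ∈ R) → l.prod ∈ I := by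
  classical
  have := Fintype.ofFinite G
  let _ : MulSemiringAction G (S ⧸ I) := quotAction I hI
  have hmk : ∀ (g : G) (x : S), g • (Ideal.Quotient.mk I x) = Ideal.Quotient.mk I (g • x) :=
    fun g x => rfl
  have hcard : (Fintype.card G : ℚ) ≠ 0 := by exact_mod_cast Fintype.card_ne_zero
  have hG : IsUnit ((Nat.card G : ℕ) : S ⧸ I) := by
    have h1 : IsUnit (algebraMap ℚ S (Nat.card G : ℚ)) := by
      apply IsUnit.map
      have : Nat.card G ≠ 0 := Nat.card_pos.ne'
      exact isUnit_iff_ne_zero.2 (by exact_mod_cast this)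
    rw [map_natCast] at h1
    have h2 := h1.map (Ideal.Quotient.mk I)
    rwa [map_natCast] at h2
  -- invariant elements lift to invariant elements
  have lift : ∀ x : S ⧸ I, x ∈ quotIdeal I R → (∀ g : G, g • x = x) →
      ∃ r ∈ R, (∀ g : G, g • r = r) ∧ Ideal.Quotient.mk I r = x := by
    rintro _ ⟨r, hr, rfl⟩ hx
    have hq : ∀ (g : G) (q : ℚ) (x : S), g • (q • x) = q • (g • x) := fun g q x =>
      map_rat_smul (DistribSMul.toAddMonoidHom S g) q x
    refine ⟨(Fintype.card G : ℚ)⁻¹ • ∑ g : G, g • r, ?_, ?_, ?_⟩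
    · have h1 : ∑ g : G, g • r ∈ R := R.sum_mem fun g _ => hR g r hr
      rw [← one_mul (∑ g : G, g • r), ← smul_mul_assoc]
      exact R.mul_mem_left _ h1
    · intro g
      rw [hq, Finset.smul_sum]
      congr 1
      rw [← Fintype.sum_equiv (Equiv.mulLeft g) (fun h => g • h • r) (fun h => h • r)]
      intro h
      rw [Equiv.coe_mulLeft, mul_smul]
    · have h2 : Ideal.Quotient.mk I (∑ g : G, g • r) =
          (Fintype.card G : ℕ) • Ideal.Quotient.mk I r := by
        rw [map_sum]
        have h3 : ∀ g : G, Ideal.Quotient.mk I (g • r) = Ideal.Quotient.mk I r := fun g => by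
          rw [← hmk, hx]
        simp only [h3, Finset.sum_const, Finset.card_univ]
      have h4 : (Fintype.card G : ℚ)⁻¹ • ∑ g : G, g • r =
          algebraMap ℚ S (Fintype.card G : ℚ)⁻¹ * ∑ g : G, g • r := by
        rw [Algebra.smul_def]
      rw [h4, map_mul, h2, nsmul_eq_mul, ← mul_assoc, ← map_natCast (Ideal.Quotient.mk I),
        ← map_natCast (algebraMap ℚ S), ← map_mul (Ideal.Quotient.mk I),
        ← map_mul (algebraMap ℚ S), inv_mul_cancel₀ hcard, map_one, map_one, one_mul]
  obtain ⟨N, hN⟩ := exists_prodZero (G := G) (S := S ⧸ I) hG (R := quotIdeal I R) (by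
    rintro g _ ⟨r, hr, rfl⟩
    exact ⟨g • r, hR g r hr, rfl⟩) (n := n) (by
    intro l hl hlR
    have h1 : ∃ l' : List S, l'.map (Ideal.Quotient.mk I) = l ∧
        ∀ x ∈ l', x ∈ R ∧ ∀ g : G, g • x = x := by
      clear hl
      induction l with
      | nil => exact ⟨[], rfl, by simp⟩
      | cons a l ih =>
        obtain ⟨l', h2, h3⟩ := ih (fun x hx => hlR x (List.mem_cons_of_mem a hx))
        obtain ⟨ha1, ha2⟩ := hlR a List.mem_cons_self
        obtain ⟨r, hr1, hr2, hr3⟩ := lift a ha1 ha2
        refine ⟨r :: l', by rw [List.map_cons, h2, hr3], ?_⟩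
        intro x hx
        rcases List.mem_cons.1 hx with rfl | h
        · exact ⟨hr1, hr2⟩
        · exact h3 x h
    obtain ⟨l', rfl, h3⟩ := h1
    rw [← map_list_prod, Ideal.Quotient.eq_zero_iff_mem]
    exact hn l' (by rwa [List.length_map] at hl) h3)
  refine ⟨N, fun l hl hlR => ?_⟩
  rw [← Ideal.Quotient.eq_zero_iff_mem, map_list_prod]
  refine hN _ (by rw [List.length_map, hl]) ?_
  intro x hx
  obtain ⟨r, hr, rfl⟩ := List.mem_map.1 hx
  exact ⟨r, hlR r hr, rfl⟩

end

/-- `X` is any smooth projective variety, `Y` is the generic member of a family of complete intersections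
in `X`, over the function field `K` of the base, `F` is a finite Galois extension of `K` with group `G`,
and `T` is the ring of self-correspondences of all degrees of `Y_F` (Chow groups with rational
coefficients; `s * t` is: first `s`, then `t`).  `A` is the Chow ring of `X`, and `C` is the Chow group of
`X × X`. -/
structure Section (T : Type*) [Ring T] [Algebra ℚ T] (A : Type*) [CommRing A] [Algebra ℚ A]
    (C : Type*) [AddCommGroup C] [Module ℚ C] where
  /-- the component in codimension `0` -/
  aug : A →ₐ[ℚ] ℚ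
  /-- the ideal of the classes of positive codimension is nilpotent -/
  nilpotent : IsNilpotent (RingHom.ker aug)
  /-- `diag x` is the direct image of the restriction of `x` under the diagonal of `Y` -/
  diag : A →ₐ[ℚ] T
  /-- the restriction of cycles from `X × X` to `Y × Y`: `pull z` is the correspondence `i^* z i_*`, where
  `i` is the inclusion of `Y` in `X` -/
  pull : C →ₗ[ℚ] T

/-- The Chow groups of the fibre product `W` of `𝒴` with itself over `B`, which is contained in
`B × X × X`. `O` is the Chow group of the part of `W` over the complement of the diagonal of `X × X`,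
and `Z` is the Chow group of the diagonal of `W`, that is of `𝒴`. -/
structure Section.Family {T : Type*} [Ring T] [Algebra ℚ T] {A : Type*} [CommRing A] [Algebra ℚ A]
    {C : Type*} [AddCommGroup C] [Module ℚ C]
    (c : Section T A C) (G : Type*) [Group G] [MulSemiringAction G T] (W O Z : Type*)
    [AddCommGroup W] [Module ℚ W] [AddCommGroup O] [Module ℚ O] [AddCommGroup Z] [Module ℚ Z] where
  /-- the restriction of cycles from `X × X` to `W` -/
  res : C →ₗ[ℚ] W
  /-- restriction to the open part -/
  toOpen : W →ₗ[ℚ] O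
  /-- the open part is an open subset of a vector bundle over the complement of the diagonal in
  `X × X` -/
  surj_open : Function.Surjective (toOpen ∘ₗ res)
  /-- direct image from the diagonal of `W` -/
  push : Z →ₗ[ℚ] W
  /-- the localisation sequence -/
  exact : Function.Exact push toOpen
  /-- the restriction of cycles from `X` to `𝒴` -/
  resDiag : A →ₗ[ℚ] Z
  /-- `𝒴` is an open subset of a vector bundle over `X` -/
  surj_diag : Function.Surjective resDiag
  /-- restriction to the generic fibre and extension of scalars from `K` to `F` -/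
  gen : W →ₗ[ℚ] T
  smul_gen : ∀ (g : G) (w : W), g • gen w = gen w
  /-- every cycle over `K` is the restriction of a cycle on `W`, and every Galois invariant cycle
  over `F` comes from `K` -/
  surj_gen : ∀ t : T, (∀ g : G, g • t = t) → ∃ w, gen w = t
  gen_res : ∀ x : C, gen (res x) = c.pull x
  gen_push : ∀ x : A, gen (push (resDiag x)) = c.diag x

namespace Section

variable {T : Type*} [Ring T] [Algebra ℚ T] {A : Type*} [CommRing A] [Algebra ℚ A]
  {C : Type*} [AddCommGroup C] [Module ℚ C] {c : Section T A C}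
  {G : Type*} [Group G] [MulSemiringAction G T] {W O Z : Type*}
  [AddCommGroup W] [Module ℚ W] [AddCommGroup O] [Module ℚ O] [AddCommGroup Z] [Module ℚ Z]

/-- Spreading out of the cycles over `K`. -/
theorem Family.exists_eq (u : Family c G W O Z) (t : T) (ht : ∀ g : G, g • t = t) :
    ∃ (x : C) (z : A), t = c.pull x + c.diag z := by
  obtain ⟨w, rfl⟩ := u.surj_gen t ht
  obtain ⟨x, hx⟩ := u.surj_open (u.toOpen w)
  have h1 : u.toOpen (w - u.res x) = 0 := by
    rw [map_sub, sub_eq_zero]
    exact hx.symm
  obtain ⟨y, hy⟩ := (u.exact _).1 h1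
  obtain ⟨z, rfl⟩ := u.surj_diag y
  refine ⟨x, z, ?_⟩
  rw [← u.gen_res, ← u.gen_push, hy, ← map_add]
  congr 1
  abel

variable (c)

/-- The correspondences which are sums of compositions `Y ⟶ Y ⟶ X ⟶ X ⟶ Y ⟶ Y`, with the transpose of
the inclusion in the second place and the inclusion in the fourth. -/
def through : Ideal T where
  carrier := AddSubgroup.closure {t | ∃ a x b, t = a * c.pull x * b}
  add_mem' := fun ha hb => AddSubgroup.add_mem _ ha hb
  zero_mem' := AddSubgroup.zero_mem _
  smul_mem' := by
    intro s t ht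
    refine AddSubgroup.closure_induction (p := fun t _ => s * t ∈ AddSubgroup.closure
      {t | ∃ a x b, t = a * c.pull x * b}) ?_ ?_ ?_ ?_ ht
    · rintro _ ⟨a, x, b, rfl⟩
      exact AddSubgroup.subset_closure ⟨s * a, x, b, by simp only [mul_assoc]⟩
    · rw [mul_zero]; exact AddSubgroup.zero_mem _
    · intro a b _ _ ha hb
      rw [mul_add]; exact AddSubgroup.add_mem _ ha hb
    · intro a _ ha
      rw [mul_neg]; exact AddSubgroup.neg_mem _ ha

lemma mem_through {t : T} : t ∈ c.through ↔
    t ∈ AddSubgroup.closure {t | ∃ a x b, t = a * c.pull x * b} := Iff.rfl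

instance : c.through.IsTwoSided := ⟨by
  intro t s ht
  refine AddSubgroup.closure_induction (p := fun t _ => t * s ∈ AddSubgroup.closure
    {t | ∃ a x b, t = a * c.pull x * b}) ?_ ?_ ?_ ?_ ht
  · rintro _ ⟨a, x, b, rfl⟩
    exact AddSubgroup.subset_closure ⟨a, x, b * s, by simp only [mul_assoc]⟩
  · rw [zero_mul]; exact AddSubgroup.zero_mem _
  · intro a b _ _ ha hb
    rw [add_mul]; exact AddSubgroup.add_mem _ ha hb
  · intro a _ ha
    rw [neg_mul]; exact AddSubgroup.neg_mem _ ha⟩

variable {c}

lemma pull_mem (x : C) : c.pull x ∈ c.through :=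
  AddSubgroup.subset_closure ⟨1, x, 1, by rw [one_mul, mul_one]⟩

lemma Family.smul_pull (u : Family c G W O Z) (g : G) (x : C) : g • c.pull x = c.pull x := by
  rw [← u.gen_res, u.smul_gen]

lemma Family.smul_through (u : Family c G W O Z) (g : G) (t : T) (ht : t ∈ c.through) :
    g • t ∈ c.through := by
  refine AddSubgroup.closure_induction (p := fun t _ => g • t ∈ AddSubgroup.closure
    {t | ∃ a x b, t = a * c.pull x * b}) ?_ ?_ ?_ ?_ ht
  · rintro _ ⟨a, x, b, rfl⟩
    exact AddSubgroup.subset_closure ⟨g • a, x, g • b, by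
      rw [smul_mul', smul_mul', u.smul_pull]⟩
  · rw [smul_zero]; exact AddSubgroup.zero_mem _
  · intro a b _ _ ha hb
    rw [smul_add]; exact AddSubgroup.add_mem _ ha hb
  · intro a _ ha
    rw [smul_neg]; exact AddSubgroup.neg_mem _ ha

/-- the invariant elements of `ker l` modulo the correspondences which factor through `X` -/
lemma Family.prod_mem (u : Family c G W O Z) (l : T →ₐ[ℚ] ℚ) (hp : ∀ x, l (c.pull x) = 0)
    {n : ℕ} (hn : RingHom.ker c.aug ^ n = ⊥) (L : List T) (hL : L.length = n)
    (h : ∀ t ∈ L, l t = 0 ∧ ∀ g : G, g • t = t) : L.prod ∈ c.through := by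
  have hdiag : ∀ a, l (c.diag a) = c.aug a := by
    intro a
    have h1 : IsNilpotent (a - algebraMap ℚ A (c.aug a)) := by
      have h2 : a - algebraMap ℚ A (c.aug a) ∈ RingHom.ker c.aug := by
        rw [RingHom.mem_ker, map_sub, AlgHom.commutes]
        exact sub_self _
      obtain ⟨m, hm⟩ := c.nilpotent
      refine ⟨m, ?_⟩
      have h3 := Ideal.pow_mem_pow h2 m
      rw [hm] at h3
      exact h3
    have h2 : IsNilpotent (l (c.diag (a - algebraMap ℚ A (c.aug a)))) :=
      (h1.map c.diag).map l
    have h3 := h2.eq_zero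
    rw [map_sub, map_sub, AlgHom.commutes, AlgHom.commutes, sub_eq_zero] at h3
    exact h3
  -- every member of the list is `diag z` with `aug z = 0`, modulo the ideal
  have key : ∀ L : List T, (∀ t ∈ L, l t = 0 ∧ ∀ g : G, g • t = t) →
      ∃ z ∈ RingHom.ker c.aug ^ L.length, L.prod - c.diag z ∈ c.through := by
    intro L
    induction L with
    | nil =>
      intro _
      exact ⟨1, by simp, by simp⟩
    | cons t L ih =>
      intro h
      obtain ⟨z, hz, hz'⟩ := ih (fun s hs => h s (List.mem_cons_of_mem t hs))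
      obtain ⟨ht, ht'⟩ := h t List.mem_cons_self
      obtain ⟨x, w, rfl⟩ := u.exists_eq t ht'
      rw [map_add, hp, zero_add, hdiag] at ht
      refine ⟨w * z, ?_, ?_⟩
      · rw [List.length_cons, pow_succ']
        exact Ideal.mul_mem_mul ht hz
      · have h1 : (c.pull x + c.diag w) * L.prod - c.diag (w * z) =
            c.pull x * L.prod + c.diag w * (L.prod - c.diag z) := by
          rw [map_mul]; noncomm_ring
        rw [List.prod_cons, h1]
        exact c.through.add_mem (c.through.mul_mem_right _ (pull_mem x))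
          (c.through.mul_mem_left _ hz')
  obtain ⟨z, hz, hz'⟩ := key L h
  rw [hL, hn] at hz
  have hz0 : z = 0 := hz
  rwa [hz0, map_zero, sub_zero] at hz'

/-- **Nilpotence modulo the ambient variety.** -/
theorem Family.exists_prod_mem [Finite G] (u : Family c G W O Z) (l : T →ₐ[ℚ] ℚ)
    (hp : ∀ x, l (c.pull x) = 0) (hl : ∀ (g : G) (t : T), l t = 0 → l (g • t) = 0) :
    ∃ N : ℕ, ∀ L : List T, L.length = N → (∀ t ∈ L, l t = 0) → L.prod ∈ c.through := by
  obtain ⟨n, hn⟩ := c.nilpotent
  exact NilDescent.exists_prod_mem (G := G) (I := c.through) (R := RingHom.ker l)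
    u.smul_through (fun g r hr => hl g r hr) (n := n)
    (fun L hL h => u.prod_mem l hp hn L hL h)

end Section

end Pool.Agent.Lib.NilDescent
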