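import Pool.Agent.Lib.NilDescent.Relative
import Pool.Agent.Lib.NilDescent.Profinite

/-!
# Nilpotence modulo an ideal descends through groups acting with finite orbits
-/

set_option autoImplicit false

namespace Pool.Agent.Lib.NilDescent

section

variable {S : Type*} [Ring S] {Γ : Type*} [Group Γ] [MulSemiringAction Γ S]

/-- **Nilpotence modulo an ideal descends.** -/
theorem exists_prod_mem_level [Algebra ℚ S] {I R : Ideal S} [I.IsTwoSided]
    (hI : ∀ (g : Γ), ∀ t ∈ I, g • t ∈ I) (hR : ∀ (g : Γ), ∀ r ∈ R, g • r ∈ R) {n : ℕ}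
    (hn : ∀ l : List S, l.length = n → (∀ x ∈ l, x ∈ R ∧ ∀ g : Γ, g • x = x) → l.prod ∈ I)
    (U : Subgroup Γ) [U.Normal] [U.FiniteIndex] :
    ∃ N : ℕ, ∀ l : List S, l.length = N → (∀ x ∈ l, x ∈ R ∧ ∀ g ∈ U, g • x = x) →
      l.prod ∈ I := by
  let _ := quotientAction (T := S) U
  have : Finite (Γ ⧸ U) := Subgroup.finite_quotient_of_finiteIndex
  have hq1 : ∀ q : ℚ, algebraMap ℚ S q ∈ fixedRing S U := by
    intro q g _
    exact RingHom.congr_fun (Subsingleton.elim
      ((MulSemiringAction.toRingHom Γ S g).comp (algebraMap ℚ S)) (algebraMap ℚ S)) q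
  let A' : Subalgebra ℚ S := { fixedRing S U with algebraMap_mem' := hq1 }
  let _ : Algebra ℚ (fixedRing S U) := A'.algebra
  let I' : Ideal (fixedRing S U) :=
    { carrier := {t | (t : S) ∈ I}
      add_mem' := fun ha hb => I.add_mem ha hb
      zero_mem' := I.zero_mem
      smul_mem' := fun c x hx => I.mul_mem_left (c : S) hx }
  let R' : Ideal (fixedRing S U) :=
    { carrier := {t | (t : S) ∈ R}
      add_mem' := fun ha hb => R.add_mem ha hb
      zero_mem' := R.zero_mem
      smul_mem' := fun c x hx => R.mul_mem_left (c : S) hx }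
  have hI' : I'.IsTwoSided := ⟨fun b ha => I.mul_mem_right _ ha⟩
  have hprod : ∀ l : List (fixedRing S U), ((l.prod : fixedRing S U) : S) =
      (l.map (fixedRing S U).subtype).prod := fun l => map_list_prod (fixedRing S U).subtype l
  obtain ⟨N, hN⟩ := exists_prod_mem (G := Γ ⧸ U) (S := fixedRing S U) (I := I') (R := R')
    (by
      intro g r hr
      obtain ⟨g, rfl⟩ := QuotientGroup.mk_surjective g
      exact hI g _ hr)
    (by
      intro g r hr
      obtain ⟨g, rfl⟩ := QuotientGroup.mk_surjective g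
      exact hR g _ hr) (n := n)
    (by
      intro l hl hlR
      change ((l.prod : fixedRing S U) : S) ∈ I
      rw [hprod]
      refine hn _ (by rw [List.length_map, hl]) ?_
      intro x hx
      obtain ⟨t, ht, rfl⟩ := List.mem_map.1 hx
      obtain ⟨h1, h2⟩ := hlR t ht
      exact ⟨h1, fun g => congrArg Subtype.val (h2 (QuotientGroup.mk g))⟩)
  refine ⟨N, fun l hl hlR => ?_⟩
  let l' : List (fixedRing S U) := l.attach.map
    (fun x : {x // x ∈ l} => (⟨x.1, (hlR x.1 x.2).2⟩ : fixedRing S U))
  have h2 : l'.map (fixedRing S U).subtype = l := by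
    rw [List.map_map]
    exact List.attach_map_subtype_val l
  have h3 := hN l' (by rw [List.length_map, List.length_attach, hl]) (by
    intro x hx
    obtain ⟨y, _, rfl⟩ := List.mem_map.1 hx
    exact (hlR y.1 y.2).1)
  have h4 : ((l'.prod : fixedRing S U) : S) ∈ I := h3
  rwa [hprod, h2] at h4

end

end Pool.Agent.Lib.NilDescent
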